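import Pool.Agent.Helper18.TP.Basic

/-!
# The splitting lemma

A closed forcing cannot split the positive sets more and more along a tree of height `cof ν`,
because this would give more than `ν` nodes on one level.
-/

open Cardinal Set

universe u v

namespace Pool.Agent.Helper18.TP

variable {I : Type u} [Preorder I]

section rec

variable {Θ : Type u} [LinearOrder Θ] [WellFoundedLT Θ] {M : Θ → Type u}
variable {P : Type v} [Preorder P] [Nonempty P]

/-- a lower bound of a family, if there is one -/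
noncomputable def LB {J : Type u} (s : J → P) : P := by
  classical
  exact if h : ∃ q, ∀ j, q ≤ s j then h.choose else Classical.arbitrary P

lemma LB_le {J : Type u} (s : J → P) (h : ∃ q, ∀ j, q ≤ s j) (j : J) : LB s ≤ s j := by
  classical
  unfold LB
  rw [dif_pos h]
  exact h.choose_spec j

/-- the conditions along a branch `f` -/
noncomputable def qf (c : P → (i : Θ) → M i → P) (f : ∀ i, M i) : Θ → P :=
  (wellFounded_lt (α := Θ)).fix
    (fun i rec => LB (fun j : {j : Θ // j < i} => c (rec j.1 j.2) j.1 (f j.1)))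

lemma qf_eq (c : P → (i : Θ) → M i → P) (f : ∀ i, M i) (i : Θ) :
    qf c f i = LB (fun j : {j : Θ // j < i} => c (qf c f j.1) j.1 (f j.1)) := by
  unfold qf
  rw [WellFounded.fix_eq]

lemma qf_congr (c : P → (i : Θ) → M i → P) (f g : ∀ i, M i) (i : Θ)
    (h : ∀ j < i, f j = g j) : qf c f i = qf c g i := by
  induction i using WellFoundedLT.induction with
  | ind i ih =>
    rw [qf_eq, qf_eq]
    congr 1
    funext j
    rw [ih j.1 j.2 (fun k hk => h k (hk.trans j.2)), h j.1 j.2]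

lemma qf_le (c : P → (i : Θ) → M i → P) (hc : ∀ q i ζ, c q i ζ ≤ q)
    (hcl : ∀ (J : Type u) [LinearOrder J] [WellFoundedLT J], #J ≤ #Θ →
      ∀ s : J → P, Antitone s → ∃ q, ∀ j, q ≤ s j)
    (f : ∀ i, M i) (i : Θ) : ∀ j < i, qf c f i ≤ c (qf c f j) j (f j) := by
  induction i using WellFoundedLT.induction with
  | ind i ih =>
    intro j hj
    rw [qf_eq]
    refine LB_le (fun j : {j : Θ // j < i} => c (qf c f j.1) j.1 (f j.1)) ?_ ⟨j, hj⟩
    refine hcl {j : Θ // j < i} (Cardinal.mk_subtype_le _) _ ?_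
    intro j1 j2 h12
    rcases eq_or_lt_of_le h12 with h | h
    · rw [h]
    · exact (hc _ _ _).trans (ih j2.1 j2.2 j1.1 h)

lemma exists_qlim (c : P → (i : Θ) → M i → P) (hc : ∀ q i ζ, c q i ζ ≤ q)
    (hcl : ∀ (J : Type u) [LinearOrder J] [WellFoundedLT J], #J ≤ #Θ →
      ∀ s : J → P, Antitone s → ∃ q, ∀ j, q ≤ s j)
    (f : ∀ i, M i) : ∃ q, ∀ i, q ≤ c (qf c f i) i (f i) := by
  refine hcl Θ le_rfl (fun i => c (qf c f i) i (f i)) ?_
  intro j1 j2 h12
  rcases eq_or_lt_of_le h12 with h | h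
  · rw [h]
  · exact (hc _ _ _).trans (qf_le c hc hcl f j2 j1 h)

end rec

/-- **Splitting lemma.** -/
theorem split {θ τ ν : Cardinal.{u}} (G : GenUF.{u, v} I θ τ) (S : InvSys I) (d : ∀ a, S.L a)
    (hI : UpDir ν I) (hL : ∀ a, #(S.L a) ≤ ν)
    {Θ : Type u} [LinearOrder Θ] [WellFoundedLT Θ] (hΘ : #Θ ≤ θ) (hΘτ : #(Option Θ) ≤ τ)
    (M : Θ → Type u) [∀ i, Nonempty (M i)]
    (hsum : #(Σ i : Θ, ∀ j : {j : Θ // j < i}, M j.1) ≤ ν)
    (hprod : ν < #(∀ i, M i)) (q₁ : G.Q) :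
    ∃ q₀ ≤ q₁, ∃ i, ∀ α, ¬ ∃ (c : M i → G.Q) (A : M i → Set (S.L α)),
      (∀ ζ, c ζ ≤ q₀) ∧ (∀ ζ, hit S d α (A ζ) ∈ G.F (c ζ)) ∧
      (∀ ζ ζ', ζ ≠ ζ' → Disjoint (A ζ) (A ζ')) := by
  classical
  by_contra hcon
  push Not at hcon
  -- work below `q₁`
  let P : Type v := {q : G.Q // q ≤ q₁}
  have : Nonempty P := ⟨⟨q₁, le_rfl⟩⟩
  have H : ∀ (q : P) (i : Θ), ∃ α : I, ∃ (c : M i → P) (A : M i → Set (S.L α)),
      (∀ ζ, c ζ ≤ q) ∧ (∀ ζ, hit S d α (A ζ) ∈ G.F (c ζ).1) ∧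
      (∀ ζ ζ', ζ ≠ ζ' → Disjoint (A ζ) (A ζ')) := by
    intro q i
    obtain ⟨α, c, A, h1, h2, h3⟩ := hcon q.1 q.2 i
    exact ⟨α, fun ζ => ⟨c ζ, (h1 ζ).trans q.2⟩, A, h1, h2, h3⟩
  choose al c A hc hA hdis using H
  have hcl : ∀ (J : Type u) [LinearOrder J] [WellFoundedLT J], #J ≤ #Θ →
      ∀ s : J → P, Antitone s → ∃ q, ∀ j, q ≤ s j := by
    intro J _ _ hJ s hs
    rcases isEmpty_or_nonempty J with hE | ⟨⟨j0⟩⟩
    · exact ⟨⟨q₁, le_rfl⟩, fun j => (hE.false j).elim⟩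
    · obtain ⟨q, hq⟩ := G.closed J (hJ.trans hΘ) (fun j => (s j).1) (fun a b h => hs h)
      exact ⟨⟨q, (hq j0).trans (s j0).2⟩, hq⟩
  -- a common upper bound for all levels
  let ext : (Σ i : Θ, ∀ j : {j : Θ // j < i}, M j.1) → ∀ i, M i := fun p j =>
    if h : j < p.1 then p.2 ⟨j, h⟩ else Classical.arbitrary _
  obtain ⟨β, hβ⟩ := hI (Σ i : Θ, ∀ j : {j : Θ // j < i}, M j.1)
    (fun p => al (qf c (ext p) p.1) p.1) hsum
  have hβ' : ∀ (f : ∀ i, M i) (i : Θ), al (qf c f i) i ≤ β := by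
    intro f i
    have h1 := hβ ⟨i, fun j => f j.1⟩
    have h2 : qf c (ext ⟨i, fun j => f j.1⟩) i = qf c f i := by
      apply qf_congr
      intro j hj
      simp only [ext]
      rw [dif_pos hj]
    simp only at h1
    rw [h2] at h1
    exact h1
  have hpt : ∀ f : ∀ i, M i, ∃ a, β ≤ a ∧ ∀ i, a ∈ hit S d (al (qf c f i) i)
      (A (qf c f i) i (f i)) := by
    intro f
    obtain ⟨q, hq⟩ := exists_qlim c hc hcl f
    exact G.interNonempty hΘτ q.1 _ (fun i => G.memMono (hq i) (hA _ _ _)) β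
  choose pt hpt1 hpt2 using hpt
  have hinj : Function.Injective (fun f : (∀ i, M i) => S.π (hpt1 f) (d (pt f))) := by
    intro f g hfg
    by_contra hne
    have hex : ∃ i, f i ≠ g i := by
      by_contra h
      push Not at h
      exact hne (funext h)
    obtain ⟨i, hi, hmin⟩ := WellFounded.has_min (wellFounded_lt (α := Θ)) {i | f i ≠ g i} hex
    have hlt : ∀ j < i, f j = g j := by
      intro j hj
      by_contra h
      exact hmin j h hj
    have hq : qf c f i = qf c g i := qf_congr c f g i hlt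
    obtain ⟨h1, h2⟩ := hpt2 f i
    obtain ⟨h3, h4⟩ : pt g ∈ hit S d (al (qf c f i) i) (A (qf c f i) i (g i)) := by
      rw [hq]; exact hpt2 g i
    have hle := hβ' f i
    have e1 : S.π hle (S.π (hpt1 f) (d (pt f))) ∈ A (qf c f i) i (f i) := by
      rw [S.π_trans]; exact h2
    have e2 : S.π hle (S.π (hpt1 g) (d (pt g))) ∈ A (qf c f i) i (g i) := by
      rw [S.π_trans]; exact h4
    have hfg' : S.π (hpt1 f) (d (pt f)) = S.π (hpt1 g) (d (pt g)) := hfg
    rw [← hfg'] at e2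
    exact Set.disjoint_left.mp (hdis (qf c f i) i (f i) (g i) hi) e1 e2
  have hle : #(∀ i, M i) ≤ #(S.L β) := Cardinal.mk_le_of_injective hinj
  exact absurd (hle.trans (hL β)) (not_le.mpr hprod)

end Pool.Agent.Helper18.TP
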