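import Mathlib

/-!
# Generic ultrafilters added by closed forcing and threads through inverse systems

Preliminaries for the theorem of `Pool.Agent.Helper18.TP.Main`.
-/

open Cardinal Set

universe u v

namespace Pool.Agent.Helper18.TP

/-- The preorder `I` is `ν`-directed: every family of at most `ν` elements has an upper bound. -/
def UpDir (ν : Cardinal.{u}) (I : Type u) [Preorder I] : Prop :=
  ∀ (K : Type u) (f : K → I), #K ≤ ν → ∃ b, ∀ k, f k ≤ b

/-- An inverse system of sets indexed by a preorder. -/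
structure InvSys (I : Type u) [Preorder I] where
  L : I → Type u
  π : ∀ {a b : I}, a ≤ b → L b → L a
  π_refl : ∀ a (x : L a), π (le_refl a) x = x
  π_trans : ∀ {a b c : I} (hab : a ≤ b) (hbc : b ≤ c) (x : L c),
    π hab (π hbc x) = π (hab.trans hbc) x

/-- The inverse system has a thread (an element of the inverse limit). -/
def InvSys.HasThread {I : Type u} [Preorder I] (S : InvSys I) : Prop :=
  ∃ t : ∀ a, S.L a, ∀ {a b : I} (h : a ≤ b), S.π h (t b) = t a

/-- A forcing notion `Q`, closed under decreasing sequences of length at most `θ` and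
`τ`-distributive, together with a name (given by the filters `F q` of sets which `q` forces into
it) of an ultrafilter on the ground model subsets of `I` which contains all cones and which meets
every ground model partition of `I` into at most `τ` pieces. -/
structure GenUF (I : Type u) [Preorder I] (θ τ : Cardinal.{u}) where
  Q : Type v
  [pre : Preorder Q]
  [ne : Nonempty Q]
  F : Q → Filter I
  mono : ∀ {q q' : Q}, q' ≤ q → F q' ≤ F q
  neBot : ∀ q, (F q).NeBot
  cone : ∀ q a, Set.Ici a ∈ F q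
  dec : ∀ (K : Type u) (g : I → K), #K ≤ τ → ∀ q, ∃ q' ≤ q, ∃ k, g ⁻¹' {k} ∈ F q'
  closed : ∀ (J : Type u) [LinearOrder J] [WellFoundedLT J], #J ≤ θ →
    ∀ s : J → Q, Antitone s → ∃ q, ∀ j, q ≤ s j
  distr : ∀ (K : Type u), #K ≤ τ → ∀ D : K → Set Q,
    (∀ k, IsLowerSet (D k)) → (∀ k q, ∃ q' ≤ q, q' ∈ D k) → ∀ q, ∃ q' ≤ q, ∀ k, q' ∈ D k

attribute [instance] GenUF.pre GenUF.ne

variable {I : Type u} [Preorder I]

/-- The set of `a` such that the point `d a` projects into `A ⊆ L α`. -/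
def hit (S : InvSys I) (d : ∀ a, S.L a) (α : I) (A : Set (S.L α)) : Set I :=
  {a | ∃ h : α ≤ a, S.π h (d a) ∈ A}

section hit

variable {S : InvSys I} {d : ∀ a, S.L a}

lemma hit_mono {α : I} {A B : Set (S.L α)} (h : A ⊆ B) : hit S d α A ⊆ hit S d α B :=
  fun _ ⟨h1, h2⟩ => ⟨h1, h h2⟩

lemma hit_inter {α : I} {A B : Set (S.L α)} {a : I} (h1 : a ∈ hit S d α A)
    (h2 : a ∈ hit S d α B) : a ∈ hit S d α (A ∩ B) := by
  obtain ⟨h, hA⟩ := h1
  obtain ⟨h', hB⟩ := h2
  exact ⟨h, hA, hB⟩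

lemma hit_disj {α : I} {A B : Set (S.L α)} (hd : Disjoint A B) {a : I}
    (h1 : a ∈ hit S d α A) (h2 : a ∈ hit S d α B) : False := by
  obtain ⟨_, hAB⟩ := hit_inter h1 h2
  exact (Set.disjoint_left.mp hd) hAB.1 hAB.2

lemma hit_proj {α β : I} (h : α ≤ β) {B : Set (S.L β)} {a : I} (hB : a ∈ hit S d β B) :
    a ∈ hit S d α (S.π h '' B) := by
  obtain ⟨h1, h2⟩ := hB
  exact ⟨h.trans h1, S.π h1 (d a), h2, by rw [S.π_trans]⟩

lemma hit_pre {α β : I} (h : α ≤ β) {A : Set (S.L α)} {a : I} (hA : a ∈ hit S d α A)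
    (hβ : β ≤ a) : a ∈ hit S d β (S.π h ⁻¹' A) := by
  obtain ⟨h1, h2⟩ := hA
  exact ⟨hβ, by rw [Set.mem_preimage, S.π_trans]; exact h2⟩

end hit

namespace GenUF

variable {θ τ : Cardinal.{u}} (G : GenUF.{u, v} I θ τ)

lemma memMono {q q' : G.Q} (h : q' ≤ q) {B : Set I} (hB : B ∈ G.F q) : B ∈ G.F q' :=
  G.mono h hB

lemma nonempty_of_mem {q : G.Q} {B : Set I} (hB : B ∈ G.F q) : B.Nonempty :=
  (G.neBot q).nonempty_of_mem hB

/-- decide which piece of a cover is hit. -/
lemma decSet {S : InvSys I} {d : ∀ a, S.L a} (K : Type u) (hK : #K ≤ τ) (α : I)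
    (A : K → Set (S.L α)) (q : G.Q) (hq : hit S d α (⋃ k, A k) ∈ G.F q) :
    ∃ q' ≤ q, ∃ k, hit S d α (A k) ∈ G.F q' := by
  classical
  obtain ⟨a0, ha0⟩ := G.nonempty_of_mem hq
  obtain ⟨h0, h0'⟩ := ha0
  obtain ⟨k0, -⟩ := Set.mem_iUnion.mp h0'
  let g : I → K := fun a => if h : ∃ k, a ∈ hit S d α (A k) then h.choose else k0
  obtain ⟨q', hq', k, hk⟩ := G.dec K g hK q
  refine ⟨q', hq', k, ?_⟩
  have h1 := Filter.inter_mem hk (G.memMono hq' hq)
  refine Filter.mem_of_superset h1 ?_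
  rintro a ⟨ha1, ha2⟩
  obtain ⟨h2, h3⟩ := ha2
  obtain ⟨k', hk'⟩ := Set.mem_iUnion.mp h3
  have h4 : ∃ k, a ∈ hit S d α (A k) := ⟨k', h2, hk'⟩
  have h5 : g a = h4.choose := by simp only [g]; rw [dif_pos h4]
  have h6 : g a = k := ha1
  rw [h5] at h6
  rw [← h6]
  exact h4.choose_spec

/-- decide whether the projection lies in `A`. -/
lemma decOr {S : InvSys I} {d : ∀ a, S.L a} (hτ : 2 ≤ τ) (α : I)
    (A : Set (S.L α)) (q : G.Q) :
    ∃ q' ≤ q, hit S d α A ∈ G.F q' ∨ hit S d α Aᶜ ∈ G.F q' := by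
  classical
  have h1 : hit S d α (⋃ b : ULift.{u} Bool, (if b.down then A else Aᶜ)) ∈ G.F q := by
    refine Filter.mem_of_superset (G.cone q α) ?_
    intro a ha
    refine ⟨ha, ?_⟩
    by_cases h : S.π ha (d a) ∈ A
    · exact Set.mem_iUnion.mpr ⟨⟨true⟩, by simpa using h⟩
    · exact Set.mem_iUnion.mpr ⟨⟨false⟩, by simpa using h⟩
  obtain ⟨q', hq', ⟨b⟩, hb⟩ := G.decSet (ULift.{u} Bool) (by simpa using hτ) α _ q h1
  refine ⟨q', hq', ?_⟩
  cases b
  · right; simpa using hb
  · left; simpa using hb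

/-- A family of at most `τ` many sets in `F q` has nonempty intersection with every cone. -/
lemma interNonempty {J : Type u} (hJ : #(Option J) ≤ τ) (q : G.Q) (B : J → Set I)
    (hB : ∀ j, B j ∈ G.F q) (β : I) : ∃ a, β ≤ a ∧ ∀ j, a ∈ B j := by
  classical
  let g : I → Option J := fun a => if h : ∃ j, a ∉ B j then some h.choose else none
  obtain ⟨q', hq', k, hk⟩ := G.dec _ g hJ q
  cases k with
  | some j =>
    exfalso
    obtain ⟨a, ha1, ha2⟩ := G.nonempty_of_mem (Filter.inter_mem hk (G.memMono hq' (hB j)))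
    have h1 : g a = some j := ha1
    by_cases h : ∃ j, a ∉ B j
    · have h2 : g a = some h.choose := by simp only [g]; rw [dif_pos h]
      rw [h2] at h1
      have h3 : h.choose = j := by simpa using h1
      exact h.choose_spec (h3 ▸ ha2)
    · have h2 : g a = none := by simp only [g]; rw [dif_neg h]
      rw [h2] at h1
      simp at h1
  | none =>
    obtain ⟨a, ha1, ha2⟩ := G.nonempty_of_mem (Filter.inter_mem hk (G.cone q' β))
    refine ⟨a, ha2, ?_⟩
    have h1 : g a = none := ha1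
    by_contra hcon
    push Not at hcon
    have h2 : g a = some hcon.choose := by simp only [g]; rw [dif_pos hcon]
    rw [h2] at h1
    simp at h1

end GenUF

end Pool.Agent.Helper18.TP
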