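import Pool.Agent.Helper18.TP.Card

/-!
# Closed forcings decide branches through narrow systems
-/

open Cardinal Set

universe u v

namespace Pool.Agent.Helper18.TP

variable {I : Type u} [Preorder I]

/-- `t` is a thread. -/
def IsThread (S : InvSys I) (t : ∀ a, S.L a) : Prop :=
  ∀ {a b : I} (h : a ≤ b), S.π h (t b) = t a

/-- the thread through a given point of a level which determines all later ones -/
lemma thread_through (S : InvSys I) (E : ∀ a, Set (S.L a)) {ν : Cardinal.{u}} (hν : ℵ₀ ≤ ν)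
    (hI : UpDir ν I)
    (maps : ∀ {a b : I} (h : a ≤ b), ∀ y ∈ E b, S.π h y ∈ E a)
    (surj : ∀ {a b : I} (h : a ≤ b), ∀ x ∈ E a, ∃ y ∈ E b, S.π h y = x)
    (x₀ : I) (hx₀ : ∀ y (h : x₀ ≤ y), Set.InjOn (S.π h) (E y)) (u₀ : S.L x₀) (hu₀ : u₀ ∈ E x₀) :
    ∃ t : ∀ a, S.L a, IsThread S t ∧ t x₀ = u₀ ∧ ∀ y, x₀ ≤ y → t y ∈ E y := by
  classical
  have hl : ∀ y (h : x₀ ≤ y), ∃ v ∈ E y, S.π h v = u₀ := fun y h => surj h u₀ hu₀
  choose v hv hv' using hl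
  have hcomp : ∀ y y' (h : x₀ ≤ y) (h' : y ≤ y'), S.π h' (v y' (h.trans h')) = v y h := by
    intro y y' h h'
    apply hx₀ y h (maps h' _ (hv _ _)) (hv _ _)
    rw [S.π_trans, hv', hv']
  choose w hw1 hw2 using fun a : I => hI.two hν a x₀
  refine ⟨fun a => S.π (hw1 a) (v (w a) (hw2 a)), ?_, ?_, ?_⟩
  · intro a b hab
    obtain ⟨c, hc1, hc2⟩ := hI.two hν (w a) (w b)
    have e1 : v (w b) (hw2 b) = S.π hc2 (v c ((hw2 b).trans hc2)) := (hcomp _ _ _ _).symm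
    have e2 : v (w a) (hw2 a) = S.π hc1 (v c ((hw2 a).trans hc1)) := (hcomp _ _ _ _).symm
    change S.π hab (S.π (hw1 b) (v (w b) (hw2 b))) = S.π (hw1 a) (v (w a) (hw2 a))
    rw [e1, e2, S.π_trans, S.π_trans, S.π_trans]
  · change S.π (hw1 x₀) (v (w x₀) (hw2 x₀)) = u₀
    exact hv' _ _
  · intro y hy
    exact maps _ _ (hv _ _)

/-- every condition has an extension which either bounds the levels at which the branch `d` meets
the narrow system, or decides the branch `d` completely. -/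
theorem branch_or_bounded {θ τ ν : Cardinal.{u}} (G : GenUF.{u, v} I θ τ) (S : InvSys I)
    (hI : UpDir ν I) (hν : ℵ₀ < ν) (hL : ∀ a, #(S.L a) ≤ ν)
    {Θ : Type u} [LinearOrder Θ] [WellFoundedLT Θ] (hΘ : #Θ ≤ θ) (hΘτ : #(Option Θ) ≤ τ)
    (M : Θ → Type u) [∀ i, Nonempty (M i)] (hMν : ∀ i, #(M i) < ν)
    (hsum : #(Σ i : Θ, ∀ j : {j : Θ // j < i}, M j.1) ≤ ν)
    (hprod : ν < #(∀ i, M i)) {Y : Type u} (hYτ : #Y ≤ τ)
    (e : ∀ a, Y → S.L a) (β₁ : I) (A : ∀ a, Set (S.L a)) (he : ∀ a, A a ⊆ Set.range (e a))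
    (d : ∀ a, S.L a) (q : G.Q) :
    ∃ q' ≤ q, (∃ α, β₁ ≤ α ∧ ∀ α', α ≤ α' → ∀ q'' ≤ q', hit S d α' (A α') ∉ G.F q'') ∨
      (∃ t, IsThread S t ∧ ∀ α, ∀ q'' ≤ q', hit S d α {t α}ᶜ ∉ G.F q'') := by
  classical
  by_cases hst : ∃ qs ≤ q, ∀ q' ≤ qs, ∀ α, β₁ ≤ α → ∃ α', α ≤ α' ∧ ∃ q'' ≤ q',
      hit S d α' (A α') ∈ G.F q''
  · obtain ⟨qs, hqs, hstab⟩ := hst
    obtain ⟨q₀, hq₀, i₀, hi₀⟩ := split G S d hI hL hΘ hΘτ M hsum hprod qs
    let E : ∀ a, Set (S.L a) := fun a => {u | Pos G S d q₀ a {u}}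
    let μ : Cardinal.{u} := max (#(M i₀)) ℵ₀
    have hμ : ℵ₀ ≤ μ := le_max_right _ _
    have hμν : μ < ν := max_lt (hMν i₀) hν
    have hE : ∀ a, #(E a) ≤ μ := by
      intro a
      by_contra hcon
      have h1 : #(M i₀) ≤ #(E a) := (le_max_left _ _).trans (not_le.mp hcon).le
      obtain ⟨f⟩ := h1
      choose c hc1 hc2 using fun ζ => (f ζ).2
      refine hi₀ a ⟨c, fun ζ => {(f ζ).1}, hc1, hc2, ?_⟩
      intro ζ ζ' hne
      rw [Set.disjoint_singleton]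
      intro h
      exact hne (f.injective (Subtype.ext h))
    -- decide a point
    have point : ∀ q ≤ q₀, ∀ α, ∃ α', α ≤ α' ∧ ∃ q' ≤ q, ∃ u : S.L α',
        hit S d α' {u} ∈ G.F q' := by
      intro q hq α
      obtain ⟨α₁, h1, h2⟩ := hI.two hν.le α β₁
      obtain ⟨α', h3, q', hq', h4⟩ := hstab q (hq.trans hq₀) α₁ h2
      have h5 : hit S d α' (⋃ y : Y, {e α' y}) ∈ G.F q' := by
        refine Filter.mem_of_superset h4 (hit_mono ?_)
        intro x hx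
        obtain ⟨y, hy⟩ := he α' hx
        exact Set.mem_iUnion.mpr ⟨y, by simp [hy]⟩
      obtain ⟨q'', hq'', y, hy⟩ := G.decSet Y hYτ α' _ q' h5
      exact ⟨α', h1.trans h3, q'', hq''.trans hq', e α' y, hy⟩
    have maps : ∀ {a b : I} (h : a ≤ b), ∀ y ∈ E b, S.π h y ∈ E a := by
      intro a b h y hy
      have h1 : Pos G S d q₀ a (S.π h '' {y}) := Pos.proj h hy
      rw [Set.image_singleton] at h1
      exact h1
    have surj : ∀ {a b : I} (h : a ≤ b), ∀ x ∈ E a, ∃ y ∈ E b, S.π h y = x := by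
      intro a b h x hx
      obtain ⟨q, hq, hx'⟩ := hx
      obtain ⟨α', h1, q', hq', u, hu⟩ := point q hq b
      refine ⟨S.π h1 u, maps h1 u ⟨q', hq'.trans hq, hu⟩, ?_⟩
      obtain ⟨p, ⟨g1, g2⟩, ⟨g3, g4⟩⟩ := G.nonempty_of_mem
        (Filter.inter_mem (G.memMono hq' hx') hu)
      have g2' : S.π g1 (d p) = x := g2
      have g4' : S.π g3 (d p) = u := g4
      rw [← g4', ← g2', S.π_trans, S.π_trans]
    obtain ⟨x₀, hx₀⟩ := exists_injOn S E hμ (hI.mono (Order.succ_le_of_lt hμν)) hE surj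
    obtain ⟨α₁, hα₁, q₁, hq₁, u₁, hu₁⟩ := point q₀ le_rfl x₀
    have hu₁E : u₁ ∈ E α₁ := ⟨q₁, hq₁, hu₁⟩
    obtain ⟨t, ht, htx, htE⟩ := thread_through S E hν.le hI maps surj x₀ hx₀
      (S.π hα₁ u₁) (maps _ _ hu₁E)
    refine ⟨q₁, (hq₁.trans hq₀).trans hqs, Or.inr ⟨t, ht, ?_⟩⟩
    intro α q'' hq'' hcon
    obtain ⟨β, hβ1, hβ2⟩ := hI.two hν.le α x₀
    obtain ⟨β', hβ', q₃, hq₃, u, hu⟩ := point q'' (hq''.trans hq₁) β
    have huE : u ∈ E β' := ⟨q₃, (hq₃.trans hq'').trans hq₁, hu⟩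
    obtain ⟨p, ⟨⟨g1, g2⟩, ⟨g3, g4⟩⟩, ⟨g5, g6⟩⟩ := G.nonempty_of_mem (Filter.inter_mem
      (Filter.inter_mem (G.memMono hq₃ hcon) hu) (G.memMono (hq₃.trans hq'') hu₁))
    have g4' : S.π g3 (d p) = u := g4
    have g6' : S.π g5 (d p) = u₁ := g6
    have h1 : S.π (hβ2.trans hβ') u = S.π hα₁ u₁ := by
      rw [← g4', ← g6', S.π_trans, S.π_trans]
    have h2 : u = t β' := by
      apply hx₀ β' (hβ2.trans hβ') huE (htE β' (hβ2.trans hβ'))
      rw [h1, ht, htx]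
    apply g2
    show S.π g1 (d p) = t α
    rw [← ht (hβ1.trans hβ'), ← h2, ← g4', S.π_trans]
  · push Not at hst
    obtain ⟨q', hq', α, hα, h⟩ := hst q le_rfl
    exact ⟨q', hq', Or.inl ⟨α, hα, h⟩⟩

end Pool.Agent.Helper18.TP
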