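import Pool.Agent.Helper18.TP.Branch

/-!
# The generic branch is captured by few ground model threads
-/

open Cardinal Set

universe u v w

namespace Pool.Agent.Helper18.TP

variable {I : Type u} [Preorder I]

/-- **Capturing.** If `q₂` forces that the generic point of `G` is covered by the small sets
`A α`, then, using a second generic ultrafilter `G'` which is more complete, there are at most `σ`
threads such that `q₂` forces the generic point of `G` to lie on one of them at every level. -/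
theorem capture {θ τ τ' ν σ : Cardinal.{u}} (G : GenUF.{u, v} I θ τ) (G' : GenUF.{u, w} I θ τ')
    (S : InvSys I) (hI : UpDir ν I) (hν : ℵ₀ < ν) (hσ : ℵ₀ ≤ σ) (hσν : σ < ν) (hστ : σ ≤ τ')
    (hL : ∀ a, #(S.L a) ≤ ν)
    {Θ : Type u} [LinearOrder Θ] [WellFoundedLT Θ] (hΘ : #Θ ≤ θ) (hΘτ : #(Option Θ) ≤ τ')
    (M : Θ → Type u) [∀ i, Nonempty (M i)] (hMν : ∀ i, #(M i) < ν)
    (hsum : #(Σ i : Θ, ∀ j : {j : Θ // j < i}, M j.1) ≤ ν)
    (hprod : ν < #(∀ i, M i))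
    (d : ∀ a, S.L a) (β₁ : I) (A : ∀ a, Set (S.L a)) (hA : ∀ a, #(A a) ≤ σ) (q₂ : G.Q)
    (step : ∀ α, β₁ ≤ α → ∀ q ≤ q₂, ∃ q' ≤ q, hit S d α (A α) ∈ G.F q') :
    ∃ (B : Type u) (t : B → ∀ a, S.L a) (z : I), #B ≤ σ ∧ (∀ η, IsThread S (t η)) ∧ β₁ ≤ z ∧
      ∀ x, z ≤ x → ∀ q ≤ q₂, hit S d x {u | ∃ η, u = t η x}ᶜ ∉ G.F q := by
  classical
  let Y : Type u := σ.out
  have hY : #Y = σ := Cardinal.mk_out σ
  have hen : ∀ a, ∃ e : Y → S.L a, A a ⊆ Set.range e := fun a => by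
    have : Nonempty (S.L a) := ⟨d a⟩
    exact exists_enum (A a) ((hA a).trans hY.ge)
  choose e he using hen
  have hYτ : #Y ≤ τ' := hY.le.trans hστ
  have hOY : #(Option Y) ≤ τ' := by
    rw [Cardinal.mk_option, hY, Cardinal.add_one_eq hσ]
    exact hστ
  let bd : Y → Set G'.Q := fun η => {q | ∃ α, β₁ ≤ α ∧ ∀ α', α ≤ α' → ∀ q'' ≤ q,
    hit S (fun a => e a η) α' (A α') ∉ G'.F q''}
  let th : Y → Set G'.Q := fun η => {q | ∃ t, IsThread S t ∧ ∀ α, ∀ q'' ≤ q,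
    hit S (fun a => e a η) α {t α}ᶜ ∉ G'.F q''}
  obtain ⟨q₁⟩ := G'.ne
  obtain ⟨q', -, hq'⟩ := G'.distr Y hYτ (fun η => bd η ∪ th η)
    (by
      intro η q q' hle h
      rcases h with ⟨α, h1, h2⟩ | ⟨t, h1, h2⟩
      · exact Or.inl ⟨α, h1, fun α' h3 q'' h4 => h2 α' h3 q'' (h4.trans hle)⟩
      · exact Or.inr ⟨t, h1, fun α q'' h4 => h2 α q'' (h4.trans hle)⟩)
    (by
      intro η q
      obtain ⟨q', hq', h | h⟩ := branch_or_bounded G' S hI hν hL hΘ hΘτ M hMν hsum hprod hYτ e β₁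
        A he (fun a => e a η) q
      · exact ⟨q', hq', Or.inl h⟩
      · exact ⟨q', hq', Or.inr h⟩) q₁
  -- the good indices
  have hgood : ∀ η : {η : Y // q' ∈ th η}, ∃ t, IsThread S t ∧ ∀ α, ∀ q'' ≤ q',
    hit S (fun a => e a η.1) α {t α}ᶜ ∉ G'.F q'' := fun η => η.2
  choose t ht1 ht2 using hgood
  have hbad : ∀ η : {η : Y // q' ∉ th η}, ∃ α, β₁ ≤ α ∧ ∀ α', α ≤ α' → ∀ q'' ≤ q',
      hit S (fun a => e a η.1) α' (A α') ∉ G'.F q'' := by
    intro η
    rcases hq' η.1 with h | h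
    · exact h
    · exact absurd h η.2
  choose al hal1 hal2 using hbad
  obtain ⟨z₀, hz₀⟩ := hI {η : Y // q' ∉ th η} al
    ((Cardinal.mk_subtype_le _).trans (hY.le.trans hσν.le))
  obtain ⟨z, hz1, hz2⟩ := hI.two hν.le z₀ β₁
  refine ⟨{η : Y // q' ∈ th η}, t, z, (Cardinal.mk_subtype_le _).trans hY.le, fun η => ht1 η,
    hz2, ?_⟩
  intro x hx q hq hcon
  -- a typical point `y ≥ x` for `G'`
  have hy : ∃ y, ∃ h : x ≤ y, (∀ η : {η : Y // q' ∈ th η}, S.π h (e y η.1) = t η x) ∧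
      (∀ η : {η : Y // q' ∉ th η}, S.π h (e y η.1) ∉ A x) := by
    let viol : I → Y → Prop := fun y η => ∃ h : x ≤ y,
      (∃ hη : q' ∈ th η, S.π h (e y η) ≠ t ⟨η, hη⟩ x) ∨ (q' ∉ th η ∧ S.π h (e y η) ∈ A x)
    let g : I → Option Y := fun y => if h : ∃ η, viol y η then some h.choose else none
    obtain ⟨q₃, hq₃, k, hk⟩ := G'.dec _ g hOY q'
    cases k with
    | some η =>
      exfalso
      have hv : {y | viol y η} ∈ G'.F q₃ := by
        refine Filter.mem_of_superset hk ?_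
        intro y hy
        have hy' : g y = some η := hy
        by_cases h : ∃ η, viol y η
        · have h1 : g y = some h.choose := by simp only [g]; rw [dif_pos h]
          rw [h1] at hy'
          have h2 : h.choose = η := by simpa using hy'
          rw [← h2]
          exact h.choose_spec
        · have h1 : g y = none := by simp only [g]; rw [dif_neg h]
          rw [h1] at hy'
          simp at hy'
      by_cases hη : q' ∈ th η
      · refine ht2 ⟨η, hη⟩ x q₃ hq₃ (Filter.mem_of_superset hv ?_)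
        rintro y ⟨h, ⟨_, h2⟩ | ⟨h2, _⟩⟩
        · exact ⟨h, h2⟩
        · exact absurd hη h2
      · refine hal2 ⟨η, hη⟩ x ((hz₀ ⟨η, hη⟩).trans (hz1.trans hx)) q₃ hq₃
          (Filter.mem_of_superset hv ?_)
        rintro y ⟨h, ⟨h2, _⟩ | ⟨_, h2⟩⟩
        · exact absurd h2 hη
        · exact ⟨h, h2⟩
    | none =>
      obtain ⟨y, hy1, hy2⟩ := G'.nonempty_of_mem (Filter.inter_mem hk (G'.cone q₃ x))
      have hy1' : g y = none := hy1
      have hnv : ∀ η, ¬ viol y η := by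
        by_contra h
        push Not at h
        have h1 : g y = some h.choose := by simp only [g]; rw [dif_pos h]
        rw [h1] at hy1'
        simp at hy1'
      refine ⟨y, hy2, ?_, ?_⟩
      · intro η
        by_contra h
        exact hnv η.1 ⟨hy2, Or.inl ⟨η.2, h⟩⟩
      · intro η h
        exact hnv η.1 ⟨hy2, Or.inr ⟨η.2, h⟩⟩
  obtain ⟨y, hxy, hy1, hy2⟩ := hy
  have hβx : β₁ ≤ x := hz2.trans hx
  obtain ⟨q₃, hq₃, h3⟩ := step y (hβx.trans hxy) q hq
  obtain ⟨q₄, hq₄, h4⟩ := step x hβx q₃ (hq₃.trans hq)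
  obtain ⟨a, ⟨⟨g1, g2⟩, ⟨g3, g4⟩⟩, ⟨g5, g6⟩⟩ := G.nonempty_of_mem (Filter.inter_mem
    (Filter.inter_mem (G.memMono (hq₄.trans hq₃) hcon) (G.memMono hq₄ h3)) h4)
  obtain ⟨η, hη⟩ := he y g4
  have h5 : S.π hxy (e y η) = S.π g5 (d a) := by rw [hη, S.π_trans]
  by_cases hth : q' ∈ th η
  · apply g2
    refine ⟨⟨η, hth⟩, ?_⟩
    rw [← hy1 ⟨η, hth⟩]
    exact h5.symm
  · exact hy2 ⟨η, hth⟩ (by rw [h5]; exact g6)

end Pool.Agent.Helper18.TP
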