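import Pool.Agent.Helper18.TP.Main

/-!
# The theorem for singular strong limit cardinals
-/

open Cardinal Set

universe u v

namespace Pool.Agent.Helper18.TP

lemma pow_lt_of_strongLimit {ν s t : Cardinal.{u}} (hν : ν.IsStrongLimit) (hs : s < ν)
    (ht : t < ν) : s ^ t < ν := by
  have h1 : s * t < ν := Cardinal.mul_lt_of_lt hν.aleph0_le hs ht
  calc s ^ t ≤ (2 ^ s) ^ t := Cardinal.power_le_power_right (Cardinal.cantor s).le
    _ = 2 ^ (s * t) := by rw [← Cardinal.power_mul]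
    _ < ν := hν.isStrongPrelimit h1

lemma mk_Iic_lt {ν : Cardinal.{u}} (hν : ℵ₀ ≤ ν) (x : ν.ord.ToType) :
    #(Set.Iic x) < ν := by
  have h1 : #(Set.Iio x) < ν := Cardinal.mk_Iio_toType_ord_lt x
  have h2 : Set.Iic x = Set.Iio x ∪ {x} := by
    ext y; simp [le_iff_lt_or_eq]
  rw [h2]
  refine (Cardinal.mk_union_le _ _).trans_lt ?_
  exact Cardinal.add_lt_of_lt hν h1 (by simpa using Cardinal.one_lt_aleph0.trans_le hν)

/-- Combinatorial data attached to a singular strong limit cardinal `ν`: a well-ordered index set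
of size `cf ν`, a cofinal family of cardinals, and a family of well-ordered sets whose partial
products are at most `ν` but whose product is larger than `ν`. -/
structure Data (ν : Cardinal.{u}) where
  Θ : Type u
  [lo : LinearOrder Θ]
  [wf : WellFoundedLT Θ]
  M : Θ → Type u
  [mne : ∀ i, Nonempty (M i)]
  [mlo : ∀ i, LinearOrder (M i)]
  [mwf : ∀ i, WellFoundedLT (M i)]
  κ : Θ → Cardinal.{u}
  hΘ : #Θ = ν.ord.cof
  hopt : #(Option Θ) = ν.ord.cof
  hκ : ∀ i, κ i < ν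
  hcov : ∀ X : Type u, #X ≤ ν → ∃ B : Θ → Set X, (∀ i, #(B i) ≤ κ i) ∧ (⋃ i, B i) = Set.univ
  hMν : ∀ i, #(M i) < ν
  hsum : #(Σ i : Θ, ∀ j : {j : Θ // j < i}, M j.1) ≤ ν
  hprod : ν < #(∀ i, M i)

attribute [instance] Data.lo Data.wf Data.mne Data.mlo Data.mwf

lemma aleph0_le_cof' {ν : Cardinal.{u}} (hν : ν.IsStrongLimit) : ℵ₀ ≤ ν.ord.cof :=
  Ordinal.aleph0_le_cof.mpr (Cardinal.isSuccLimit_ord hν.aleph0_le)

theorem exists_data {ν : Cardinal.{u}} (hν : ν.IsStrongLimit) (hsing : ν.ord.cof < ν) :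
    Nonempty (Data ν) := by
  classical
  have hν0 : ℵ₀ ≤ ν := hν.aleph0_le
  have hθ0 : ℵ₀ ≤ ν.ord.cof := aleph0_le_cof' hν
  have hν1 : ℵ₀ < ν := hθ0.trans_lt hsing
  -- a cofinal family
  obtain ⟨s, hs, hs'⟩ := Order.exists_cof_eq ν.ord.ToType
  rw [Ordinal.cof_toType] at hs'
  let Θ : Type u := (ν.ord.cof).ord.ToType
  have hΘ : #Θ = ν.ord.cof := Cardinal.mk_ord_toType _
  obtain ⟨e⟩ : Nonempty (Θ ≃ s) := Cardinal.eq.mp (hΘ.trans hs'.symm)
  have hN : #(ν.ord.ToType) = ν := Cardinal.mk_ord_toType _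
  let κ : Θ → Cardinal.{u} := fun i => #(Set.Iic (e i).1)
  have hκ : ∀ i, κ i < ν := fun i => mk_Iic_lt hν0 _
  have hcof : ∀ x : ν.ord.ToType, ∃ i : Θ, x ≤ (e i).1 := by
    intro x
    obtain ⟨y, hy, hxy⟩ := hs x
    exact ⟨e.symm ⟨y, hy⟩, by rw [Equiv.apply_symm_apply]; exact hxy⟩
  have hcov : ∀ X : Type u, #X ≤ ν → ∃ B : Θ → Set X, (∀ i, #(B i) ≤ κ i) ∧
      (⋃ i, B i) = Set.univ := by
    intro X hX
    rw [← hN] at hX
    obtain ⟨ι⟩ := hX
    refine ⟨fun i => {x | ι x ≤ (e i).1}, ?_, ?_⟩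
    · intro i
      exact Cardinal.mk_le_of_injective (f := fun x : {x | ι x ≤ (e i).1} =>
        (⟨ι x.1, x.2⟩ : Set.Iic (e i).1)) (fun a b h => by
          apply Subtype.ext
          exact ι.injective (congrArg Subtype.val h))
    · ext x
      simp only [Set.mem_iUnion, Set.mem_ofPred_eq, Set.mem_univ, iff_true]
      exact hcof _
  let M : Θ → Type u := fun i => (Order.succ (κ i)).ord.ToType
  have hM : ∀ i, #(M i) = Order.succ (κ i) := fun i => Cardinal.mk_ord_toType _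
  have hMν : ∀ i, #(M i) < ν := fun i => by
    rw [hM]; exact hν.isSuccLimit.succ_lt (hκ i)
  have hMne : ∀ i, Nonempty (M i) := fun i => by
    rw [← Cardinal.mk_ne_zero_iff, hM]
    exact (Order.bot_lt_succ (κ i)).ne'
  have hlt : ∀ i : Θ, #{j : Θ // j < i} < ν.ord.cof := fun i => Cardinal.mk_Iio_toType_ord_lt i
  have hpi : ∀ i : Θ, #(∀ j : {j : Θ // j < i}, M j.1) ≤ ν := by
    intro i
    rw [Cardinal.mk_pi]
    have h1 : (⨆ j : {j : Θ // j < i}, #(M j.1)) < ν :=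
      Cardinal.iSup_lt_of_lt_cof_ord (hlt i) (fun j => hMν j.1)
    refine (Cardinal.prod_le_prod _ (fun _ => ⨆ j : {j : Θ // j < i}, #(M j.1)) ?_).trans ?_
    · intro j
      exact le_ciSup Cardinal.bddAbove_of_small j
    · rw [Cardinal.prod_const]
      simp only [Cardinal.lift_id]
      exact (pow_lt_of_strongLimit hν h1 ((hlt i).trans hsing)).le
  have hsum : #(Σ i : Θ, ∀ j : {j : Θ // j < i}, M j.1) ≤ ν := by
    rw [Cardinal.mk_sigma]
    refine (Cardinal.sum_le_sum _ (fun _ => ν) hpi).trans ?_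
    rw [Cardinal.sum_const]
    simp only [Cardinal.lift_id]
    rw [hΘ]
    exact (mul_le_mul' hsing.le le_rfl).trans (Cardinal.mul_eq_self hν0).le
  have hprod : ν < #(∀ i, M i) := by
    rw [Cardinal.mk_pi]
    have h1 : Cardinal.sum κ < Cardinal.prod (fun i => #(M i)) :=
      Cardinal.sum_lt_prod _ _ (fun i => by rw [hM]; exact Order.lt_succ _)
    refine lt_of_le_of_lt ?_ h1
    have h2 : (⋃ i : Θ, Set.Iic (e i).1) = (Set.univ : Set ν.ord.ToType) := by
      ext x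
      simp only [Set.mem_iUnion, Set.mem_Iic, Set.mem_univ, iff_true]
      exact hcof x
    calc ν = #(ν.ord.ToType) := hN.symm
      _ = #(Set.univ : Set ν.ord.ToType) := Cardinal.mk_univ.symm
      _ = #(⋃ i : Θ, Set.Iic (e i).1 : Set ν.ord.ToType) := by rw [h2]
      _ ≤ Cardinal.sum κ := Cardinal.mk_iUnion_le_sum_mk
  have hopt : #(Option Θ) = ν.ord.cof := by
    rw [Cardinal.mk_option, hΘ]
    exact Cardinal.add_one_eq hθ0
  exact ⟨{ Θ := Θ, M := M, κ := κ, hΘ := hΘ, hopt := hopt, hκ := hκ, hcov := hcov, hMν := hMν,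
           hsum := hsum, hprod := hprod }⟩

/-- **Main theorem.** Let `ν` be a singular strong limit cardinal, `I` a `ν`-directed index set.
If for all `τ < ν` there is a generic ultrafilter on `I` containing all cones which is added by a
forcing closed under decreasing sequences of length `≤ cf ν` and `τ`-distributive, and which meets
every partition of `I` into at most `τ` pieces, then every inverse system over `I` of nonempty
sets of size at most `ν` has a thread. -/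
theorem main {I : Type u} [Preorder I] {ν : Cardinal.{u}} (hν : ν.IsStrongLimit)
    (hsing : ν.ord.cof < ν) (hI : UpDir ν I)
    (hG : ∀ τ < ν, Nonempty (GenUF.{u, v} I ν.ord.cof τ))
    (S : InvSys I) (hL : ∀ a, #(S.L a) ≤ ν) (hne : ∀ a, Nonempty (S.L a)) : S.HasThread := by
  classical
  obtain ⟨D⟩ := exists_data hν hsing
  have hθ0 : ℵ₀ ≤ ν.ord.cof := aleph0_le_cof' hν
  have hν1 : ℵ₀ < ν := hθ0.trans_lt hsing
  have h2 : (2 : Cardinal.{u}) ≤ ν.ord.cof :=
    (Cardinal.natCast_lt_aleph0 (n := 2)).le.trans hθ0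
  let d : ∀ a, S.L a := fun a => (hne a).some
  obtain ⟨G⟩ := hG _ hsing
  obtain ⟨σ, β₁, A, hσ, hσν, hA, hnar⟩ := narrow G S d hI h2 hν1 hL D.hΘ.le D.hopt.le
    (D.hΘ.le.trans hsing.le) D.κ D.hκ D.hcov D.M D.hMν D.hsum D.hprod
  obtain ⟨G'⟩ := hG (max σ ν.ord.cof) (max_lt hσν hsing)
  exact thread_of_narrow G' S hI hσ hσν (le_max_left _ _) hL (fun a => ⟨d a⟩) D.hΘ.le
    (D.hopt.le.trans (le_max_right _ _)) D.M D.hMν D.hsum D.hprod β₁ A hA hnar

end Pool.Agent.Helper18.TP
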