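import Pool.Agent.Helper18.TP.Lists

/-!
# Clubs in `P_κ X` are closed under unions of directed families
-/

open Cardinal Set

universe u

namespace Pool.Agent.Helper18.TP

section closure

variable {α : Type u} (ub : α → α → α)

/-- approximations to the closure of a set under a binary operation -/
def clN (s : Set α) : ℕ → Set α
  | 0 => s
  | n + 1 => clN s n ∪ Set.image2 ub (clN s n) (clN s n)

/-- the closure of a set under a binary operation -/
def cl (s : Set α) : Set α := ⋃ n : ℕ, clN ub s n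

lemma clN_mono (s : Set α) {m n : ℕ} (h : m ≤ n) : clN ub s m ⊆ clN ub s n := by
  induction h with
  | refl => exact le_rfl
  | step _ ih => exact ih.trans Set.subset_union_left

lemma clN_mono' {s t : Set α} (h : s ⊆ t) (n : ℕ) : clN ub s n ⊆ clN ub t n := by
  induction n with
  | zero => exact h
  | succ n ih => exact Set.union_subset_union ih (Set.image2_subset ih ih)

lemma subset_cl (s : Set α) : s ⊆ cl ub s := Set.subset_iUnion (clN ub s) 0

lemma cl_mono {s t : Set α} (h : s ⊆ t) : cl ub s ⊆ cl ub t :=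
  Set.iUnion_mono (clN_mono' ub h)

lemma ub_mem_cl {s : Set α} {x y : α} (hx : x ∈ cl ub s) (hy : y ∈ cl ub s) :
    ub x y ∈ cl ub s := by
  obtain ⟨m, hm⟩ := Set.mem_iUnion.mp hx
  obtain ⟨n, hn⟩ := Set.mem_iUnion.mp hy
  refine Set.mem_iUnion.mpr ⟨max m n + 1, Or.inr ?_⟩
  exact ⟨x, clN_mono ub s (le_max_left _ _) hm, y, clN_mono ub s (le_max_right _ _) hn, rfl⟩

lemma mk_cl_le (s : Set α) {μ : Cardinal.{u}} (hμ : ℵ₀ ≤ μ) (hs : #s ≤ μ) : #(cl ub s) ≤ μ := by
  have h1 : ∀ n, #(clN ub s n) ≤ μ := by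
    intro n
    induction n with
    | zero => exact hs
    | succ n ih =>
      refine (Cardinal.mk_union_le _ _).trans ?_
      refine (add_le_add ih ?_).trans (Cardinal.add_eq_self hμ).le
      rw [← Set.image_uncurry_prod]
      refine (Cardinal.mk_image_le).trans ?_
      rw [Cardinal.mk_setProd]
      exact (mul_le_mul' ih ih).trans (Cardinal.mul_eq_self hμ).le
  have h2 : cl ub s = ⋃ n : ULift.{u} ℕ, clN ub s n.down := by
    apply Set.Subset.antisymm
    · intro x hx
      obtain ⟨n, hn⟩ := Set.mem_iUnion.mp hx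
      exact Set.mem_iUnion.mpr ⟨⟨n⟩, hn⟩
    · intro x hx
      obtain ⟨⟨n⟩, hn⟩ := Set.mem_iUnion.mp hx
      exact Set.mem_iUnion.mpr ⟨n, hn⟩
  rw [h2]
  refine (Cardinal.mk_iUnion_le_sum_mk).trans ?_
  refine (Cardinal.sum_le_sum _ (fun _ => μ) (fun n : ULift.{u} ℕ => h1 n.down)).trans ?_
  rw [Cardinal.sum_const]
  simp only [Cardinal.lift_id]
  exact (mul_le_mul' ((Cardinal.mk_le_aleph0).trans hμ) le_rfl).trans
    (Cardinal.mul_eq_self hμ).le

end closure

/-- A club in `P_{ν⁺} X` is closed under unions of directed families of size at most `ν`. -/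
theorem IsClub.directed_mem {ν : Cardinal.{u}} (hν : ℵ₀ ≤ ν) {X : Type u}
    {C : Set (PK (Order.succ ν) X)} (hC : IsClub C) (D : Set (PK (Order.succ ν) X))
    (hD : D ⊆ C) (hne : D.Nonempty) (hdir : DirectedOn (· ≤ ·) D) (hcard : #D ≤ ν)
    (u : PK (Order.succ ν) X) (hu : u.1 = ⋃ c ∈ D, c.1) : u ∈ C := by
  classical
  -- strong induction on the cardinality
  suffices H : ∀ μ : Cardinal.{u}, μ ≤ ν → ∀ D ⊆ C, D.Nonempty → DirectedOn (· ≤ ·) D →
      #D = μ → ∀ u : PK (Order.succ ν) X, u.1 = (⋃ c ∈ D, c.1) → u ∈ C from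
    H (#D) hcard D hD hne hdir rfl u hu
  clear hu u hcard hdir hne hD D
  intro μ
  induction μ using WellFoundedLT.induction with
  | ind μ ih =>
  intro hμ D hD hne hdir hcard u hu
  have hub : ∀ x y : D, ∃ z : D, x ≤ z ∧ y ≤ z := by
    intro x y
    obtain ⟨z, hz, h1, h2⟩ := hdir x.1 x.2 y.1 y.2
    exact ⟨⟨z, hz⟩, h1, h2⟩
  choose ub hub1 hub2 using hub
  have hDne : Nonempty D := hne.to_subtype
  rcases lt_or_ge ℵ₀ μ with hlt | hle
  · -- uncountable
    let W : Type u := μ.ord.ToType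
    have hW : #W = μ := Cardinal.mk_ord_toType _
    obtain ⟨e⟩ : Nonempty (W ≃ D) := Cardinal.eq.mp (hW.trans hcard.symm)
    let s : W → Set D := fun w => cl ub (e '' Set.Iic w)
    have hsle : ∀ w, #(s w) < μ := by
      intro w
      have h1 : #(Set.Iic w) < μ := by
        have h2 : Set.Iic w = Set.Iio w ∪ {w} := by
          ext y; simp [le_iff_lt_or_eq]
        rw [h2]
        refine (Cardinal.mk_union_le _ _).trans_lt ?_
        exact Cardinal.add_lt_of_lt hlt.le (Cardinal.mk_Iio_toType_ord_lt w)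
          (by simpa using Cardinal.one_lt_aleph0.trans hlt)
      refine (mk_cl_le ub _ (le_max_right (#(Set.Iic w)) ℵ₀)
        ((Cardinal.mk_image_le).trans (le_max_left _ _))).trans_lt ?_
      exact max_lt h1 hlt
    have hmem : ∀ w, e w ∈ s w := fun w => subset_cl ub _ ⟨w, Set.mem_Iic.mpr le_rfl, rfl⟩
    let t : W → Set (PK (Order.succ ν) X) := fun w => Subtype.val '' (s w)
    have hcardt : ∀ w, #(t w) < μ := fun w => (Cardinal.mk_image_le).trans_lt (hsle w)
    have hsz : ∀ w, #(⋃ c : t w, c.1.1 : Set X) < Order.succ ν := fun w =>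
      mk_iUnion_lt_succ hν ((hcardt w).le.trans hμ) (fun c : t w => c.1)
    let v : W → PK (Order.succ ν) X := fun w => ⟨⋃ c : t w, c.1.1, hsz w⟩
    have hvC : ∀ w, v w ∈ C := by
      intro w
      refine ih (#(t w)) (hcardt w) ((hcardt w).le.trans hμ) (t w) ?_ ⟨_, _, hmem w, rfl⟩ ?_ rfl
        (v w) ?_
      · rintro _ ⟨c, _, rfl⟩; exact hD c.2
      · rintro _ ⟨x, hx, rfl⟩ _ ⟨y, hy, rfl⟩
        exact ⟨_, ⟨ub x y, ub_mem_cl ub hx hy, rfl⟩, hub1 x y, hub2 x y⟩
      · show (⋃ c : t w, c.1.1) = ⋃ c ∈ t w, c.1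
        rw [Set.biUnion_eq_iUnion]
    have hvmono : Monotone v := by
      intro w w' h
      show (⋃ c : t w, c.1.1) ⊆ ⋃ c : t w', c.1.1
      refine Set.iUnion_subset (fun c => ?_)
      have h1 : t w ⊆ t w' := Set.image_mono (cl_mono ub (Set.image_mono (Set.Iic_subset_Iic.mpr h)))
      exact Set.subset_iUnion (fun c : t w' => c.1.1) ⟨c.1, h1 c.2⟩
    have hWne : Nonempty W := ⟨e.symm (Classical.arbitrary D)⟩
    refine hC.2 (Set.range v) ?_ (Set.range_nonempty v) hvmono.isChain_range ?_ u ?_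
    · rintro _ ⟨w, rfl⟩; exact hvC w
    · exact lt_of_le_of_lt ((Cardinal.mk_range_le).trans (hW.le.trans hμ)) (Order.lt_succ ν)
    · rw [hu]
      apply Set.Subset.antisymm
      · intro y hy
        obtain ⟨c, hc, hyc⟩ := Set.mem_iUnion₂.mp hy
        refine Set.mem_biUnion (⟨e.symm ⟨c, hc⟩, rfl⟩ : v (e.symm ⟨c, hc⟩) ∈ Set.range v) ?_
        refine Set.mem_iUnion.mpr ⟨⟨c, ⟨⟨c, hc⟩, ?_, rfl⟩⟩, hyc⟩
        have := hmem (e.symm ⟨c, hc⟩)
        rwa [Equiv.apply_symm_apply] at this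
      · intro y hy
        obtain ⟨_, ⟨w, rfl⟩, hyc⟩ := Set.mem_iUnion₂.mp hy
        obtain ⟨⟨_, ⟨c, _, rfl⟩⟩, hyc'⟩ := Set.mem_iUnion.mp hyc
        exact Set.mem_biUnion c.2 hyc'
  · -- countable
    have hcount : D.Countable := by
      rw [← Cardinal.le_aleph0_iff_set_countable, hcard]; exact hle
    obtain ⟨e, he⟩ := hcount.exists_eq_range hne
    have hee : ∀ n, e n ∈ D := fun n => by rw [he]; exact ⟨n, rfl⟩
    let c : ℕ → D := fun n => Nat.rec ⟨e 0, hee 0⟩ (fun n x => ub x ⟨e (n + 1), hee (n + 1)⟩) n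
    have hc : ∀ n, c (n + 1) = ub (c n) ⟨e (n + 1), hee (n + 1)⟩ := fun n => rfl
    have hmono : Monotone c := monotone_nat_of_le_succ (fun n => by rw [hc]; exact hub1 _ _)
    have hle' : ∀ n, e n ≤ (c n).1 := by
      intro n
      cases n with
      | zero => exact le_rfl
      | succ n => rw [hc]; exact hub2 (c n) ⟨e (n + 1), hee (n + 1)⟩
    have hm' : Monotone (fun n => (c n).1) := fun m n h => hmono h
    refine hC.2 (Set.range (fun n => (c n).1)) ?_ (Set.range_nonempty _) hm'.isChain_range ?_ u ?_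
    · rintro _ ⟨n, rfl⟩; exact hD (c n).2
    · have : #(Set.range (fun n => (c n).1)) ≤ ℵ₀ := (Set.countable_range _).le_aleph0
      exact lt_of_le_of_lt (this.trans hν) (Order.lt_succ ν)
    · rw [hu]
      apply Set.Subset.antisymm
      · intro y hy
        obtain ⟨x, hx, hyx⟩ := Set.mem_iUnion₂.mp hy
        rw [he] at hx
        obtain ⟨n, rfl⟩ := hx
        exact Set.mem_biUnion (⟨n, rfl⟩ : (c n).1 ∈ Set.range (fun n => (c n).1)) (hle' n hyx)
      · intro y hy
        obtain ⟨_, ⟨n, rfl⟩, hyx⟩ := Set.mem_iUnion₂.mp hy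
        exact Set.mem_biUnion (c n).2 hyx

end Pool.Agent.Helper18.TP
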