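import Pool.Agent.Helper18.TP.Capture
import Pool.Agent.Helper18.TP.Directed

/-!
# ITP at the successor of a singular strong limit cardinal
-/

open Cardinal Set

universe u v

namespace Pool.Agent.Helper18.TP

variable {X : Type u} {ν : Cardinal.{u}}

lemma upDir_PK (hν : ℵ₀ ≤ ν) : UpDir ν (PK (Order.succ ν) X) := by
  intro K f hK
  exact ⟨⟨⋃ k, (f k).1, mk_iUnion_lt_succ hν hK f⟩, fun k => Set.subset_iUnion
    (fun k => (f k).1) k⟩

/-- the inverse system of a list -/
noncomputable def lsys (d : PK (Order.succ ν) X → Set X) : InvSys (PK (Order.succ ν) X) where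
  L x := {y : Set X // ∃ a, x ≤ a ∧ y = d a ∩ x.1}
  π {a b} h y := ⟨y.1 ∩ a.1, by
    obtain ⟨y, c, hc, rfl⟩ := y
    refine ⟨c, h.trans hc, ?_⟩
    have h' : a.1 ⊆ b.1 := h
    show d c ∩ b.1 ∩ a.1 = d c ∩ a.1
    rw [Set.inter_assoc, Set.inter_eq_self_of_subset_right h']⟩
  π_refl a y := by
    obtain ⟨y, c, hc, rfl⟩ := y
    apply Subtype.ext
    show d c ∩ a.1 ∩ a.1 = d c ∩ a.1
    rw [Set.inter_assoc, Set.inter_self]
  π_trans {a b c} hab hbc y := by
    apply Subtype.ext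
    show y.1 ∩ b.1 ∩ a.1 = y.1 ∩ a.1
    have h' : a.1 ⊆ b.1 := hab
    rw [Set.inter_assoc, Set.inter_eq_self_of_subset_right h']

/-- the branch point given by the list at `a` -/
noncomputable def lpt (d : PK (Order.succ ν) X → Set X) (a : PK (Order.succ ν) X) : (lsys d).L a :=
  ⟨d a ∩ a.1, a, le_rfl, rfl⟩

/-- The generic ultrafilter is normal: every function which is regressive, `f a ∈ a`, on a set in
the ultrafilter has, on a set in the ultrafilter, all its values in one member of `P_κ X`. -/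
def GenUF.Normal {κ θ τ : Cardinal.{u}} (G : GenUF.{u, v} (PK κ X) θ τ) : Prop :=
  ∀ (q : G.Q) (f : PK κ X → X), {a | f a ∈ a.1} ∈ G.F q →
    ∃ q' ≤ q, ∃ x : PK κ X, {a | f a ∈ x.1} ∈ G.F q'

lemma exists_normal_finset {θ τ : Cardinal.{u}} (hν : ℵ₀ ≤ ν)
    (G : GenUF.{u, v} (PK (Order.succ ν) X) θ τ) (hG : G.Normal) (x₀ : X) (n : ℕ) :
    ∀ (q : G.Q) (f : PK (Order.succ ν) X → Finset X), (∀ a, (f a).card ≤ n) →
    {a | (f a : Set X) ⊆ a.1} ∈ G.F q →
    ∃ q' ≤ q, ∃ x : PK (Order.succ ν) X, {a | (f a : Set X) ⊆ x.1} ∈ G.F q' := by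
  classical
  have hs : ∀ s : Set X, s.Finite → #s < Order.succ ν := fun s h =>
    (h.lt_aleph0).trans_le (hν.trans (Order.le_succ ν))
  induction n with
  | zero =>
    intro q f hf h
    refine ⟨q, le_rfl, ⟨∅, hs _ Set.finite_empty⟩, ?_⟩
    refine Filter.mem_of_superset h ?_
    intro a _
    have h1 : f a = ∅ := Finset.card_eq_zero.mp (Nat.le_zero.mp (hf a))
    show (f a : Set X) ⊆ ∅
    rw [h1]; simp
  | succ n ih =>
    intro q f hf h
    let e : PK (Order.succ ν) X → X := fun a =>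
      if h : (f a).Nonempty then h.choose else x₀
    have he : ∀ a, (f a).Nonempty → e a ∈ f a := by
      intro a ha
      simp only [e]
      rw [dif_pos ha]
      exact ha.choose_spec
    let f' : PK (Order.succ ν) X → Finset X := fun a => (f a).erase (e a)
    have hf' : ∀ a, (f' a).card ≤ n := by
      intro a
      by_cases ha : (f a).Nonempty
      · have := Finset.card_erase_of_mem (he a ha)
        have h1 := hf a
        simp only [f']
        omega
      · rw [Finset.not_nonempty_iff_eq_empty] at ha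
        simp [f', ha]
    have h1 : {a | (f' a : Set X) ⊆ a.1} ∈ G.F q := by
      refine Filter.mem_of_superset h ?_
      intro a ha y hy
      exact ha (Finset.mem_of_mem_erase hy)
    obtain ⟨q', hq', x, hx⟩ := ih q f' hf' h1
    have h2 : {a | e a ∈ a.1} ∈ G.F q' := by
      refine Filter.mem_of_superset (Filter.inter_mem (G.memMono hq' h)
        (G.cone q' ⟨{x₀}, hs _ (Set.finite_singleton _)⟩)) ?_
      rintro a ⟨ha1, ha2⟩
      by_cases hne : (f a).Nonempty
      · exact ha1 (he a hne)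
      · have h3 : e a = x₀ := by simp only [e]; rw [dif_neg hne]
        show e a ∈ a.1
        rw [h3]
        exact ha2 (Set.mem_singleton x₀)
    obtain ⟨q'', hq'', y, hy⟩ := hG q' e h2
    refine ⟨q'', hq''.trans hq', ⟨x.1 ∪ y.1, (Cardinal.mk_union_le _ _).trans_lt
      (Cardinal.add_lt_of_lt (hν.trans (Order.le_succ ν)) x.2 y.2)⟩, ?_⟩
    refine Filter.mem_of_superset (Filter.inter_mem (G.memMono hq'' hx) hy) ?_
    rintro a ⟨ha1, ha2⟩ w hw
    by_cases hwe : w = e a
    · right; rw [hwe]; exact ha2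
    · left; exact ha1 (Finset.mem_erase.mpr ⟨hwe, hw⟩)

/-- clubs belong to a normal generic ultrafilter -/
theorem club_mem {θ τ : Cardinal.{u}} (hν : ℵ₀ ≤ ν) (hτ : ℵ₀ ≤ τ)
    (G : GenUF.{u, v} (PK (Order.succ ν) X) θ τ) (hG : G.Normal) (x₀ : X)
    (C : Set (PK (Order.succ ν) X)) (hC : IsClub C) (q : G.Q) : Cᶜ ∉ G.F q := by
  classical
  intro hcon
  have hs : ∀ s : Set X, s.Finite → #s < Order.succ ν := fun s h =>
    (h.lt_aleph0).trans_le (hν.trans (Order.le_succ ν))
  choose g hg1 hg2 using hC.1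
  have hfin : ∀ s : Finset X, Finite {t : Finset X // t ⊂ s} := fun s => by
    exact Set.Finite.subset (s.powerset.finite_toSet) (fun t (ht : t ⊂ s) =>
      Finset.mem_coe.mpr (Finset.mem_powerset.mpr ht.1))
  have hun : ∀ (s : Finset X) (r : {t : Finset X // t ⊂ s} → PK (Order.succ ν) X),
      #((s : Set X) ∪ ⋃ t, (r t).1 : Set X) < Order.succ ν := by
    intro s r
    refine (Cardinal.mk_union_le _ _).trans_lt ?_
    refine Cardinal.add_lt_of_lt (hν.trans (Order.le_succ ν)) (hs _ s.finite_toSet) ?_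
    have := hfin s
    exact mk_iUnion_lt_succ hν ((Cardinal.lt_aleph0_of_finite _).le.trans hν) r
  let G0 : Finset X → PK (Order.succ ν) X := fun s =>
    Finset.strongInduction (fun s rec => g ⟨(s : Set X) ∪ ⋃ t : {t : Finset X // t ⊂ s},
      (rec t.1 t.2).1, hun s (fun t => rec t.1 t.2)⟩) s
  have hG0 : ∀ s, G0 s = g ⟨(s : Set X) ∪ ⋃ t : {t : Finset X // t ⊂ s}, (G0 t.1).1,
      hun s (fun t => G0 t.1)⟩ := by
    intro s
    simp only [G0]
    rw [Finset.strongInduction_eq]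
  have hG0C : ∀ s, G0 s ∈ C := fun s => by rw [hG0]; exact hg1 _
  have hG0s : ∀ s : Finset X, (s : Set X) ⊆ (G0 s).1 := fun s => by
    rw [hG0]
    have h1 := hg2 ⟨(s : Set X) ∪ ⋃ t : {t : Finset X // t ⊂ s}, (G0 t.1).1,
      hun s (fun t => G0 t.1)⟩
    exact Set.Subset.trans (Set.subset_union_left (s := (s : Set X))) h1
  have hG0m : ∀ s t : Finset X, s ⊆ t → G0 s ≤ G0 t := by
    intro s t hst
    rcases eq_or_ne s t with rfl | hne
    · exact le_rfl
    · have h1 : s ⊂ t := lt_of_le_of_ne hst hne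
      rw [hG0 t]
      refine le_trans ?_ (hg2 _)
      show (G0 s).1 ⊆ _
      exact (Set.subset_iUnion (fun r : {r : Finset X // r ⊂ t} => (G0 r.1).1) ⟨s, h1⟩).trans
        Set.subset_union_right
  -- closure points of `G0` are in `C`
  have hfinle : ∀ a : PK (Order.succ ν) X, #{s : Finset X // (s : Set X) ⊆ a.1} ≤ ν := by
    intro a
    have h1 : #(Finset a.1) ≤ ν := by
      rcases finite_or_infinite a.1 with h | h
      · exact (Cardinal.lt_aleph0_of_finite _).le.trans hν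
      · rw [Cardinal.mk_finset_of_infinite]
        exact Order.lt_succ_iff.mp a.2
    refine le_trans ?_ h1
    refine Cardinal.mk_le_of_surjective (f := fun s : Finset a.1 =>
      (⟨s.map ⟨Subtype.val, Subtype.val_injective⟩, by
        intro y hy
        simp only [Finset.coe_map, Function.Embedding.coeFn_mk, Set.mem_image,
          Finset.mem_coe] at hy
        obtain ⟨w, _, rfl⟩ := hy
        exact w.2⟩ : {s : Finset X // (s : Set X) ⊆ a.1})) ?_
    rintro ⟨s, hs⟩
    refine ⟨s.subtype (· ∈ a.1), ?_⟩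
    apply Subtype.ext
    show (s.subtype (· ∈ a.1)).map ⟨Subtype.val, Subtype.val_injective⟩ = s
    ext y
    simp only [Finset.mem_map, Finset.mem_subtype, Function.Embedding.coeFn_mk]
    constructor
    · rintro ⟨w, hw, rfl⟩; exact hw
    · intro hy; exact ⟨⟨y, hs hy⟩, hy, rfl⟩
  have hclos : ∀ a : PK (Order.succ ν) X, (∀ s : Finset X, (s : Set X) ⊆ a.1 → G0 s ≤ a) →
      a ∈ C := by
    intro a ha
    let D : Set (PK (Order.succ ν) X) := Set.range
      (fun s : {s : Finset X // (s : Set X) ⊆ a.1} => G0 s.1)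
    refine hC.directed_mem hν D ?_ ⟨G0 ∅, ⟨∅, by simp⟩, rfl⟩ ?_ ?_ a ?_
    · rintro _ ⟨s, rfl⟩; exact hG0C _
    · rintro _ ⟨s, rfl⟩ _ ⟨t, rfl⟩
      refine ⟨G0 (s.1 ∪ t.1), ⟨⟨s.1 ∪ t.1, ?_⟩, rfl⟩, hG0m _ _ Finset.subset_union_left,
        hG0m _ _ Finset.subset_union_right⟩
      rw [Finset.coe_union]
      exact Set.union_subset s.2 t.2
    · exact (Cardinal.mk_range_le).trans (hfinle a)
    · apply Set.Subset.antisymm
      · intro y hy
        have h1 : (({y} : Finset X) : Set X) ⊆ a.1 := by simpa using hy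
        exact Set.mem_biUnion (⟨⟨{y}, h1⟩, rfl⟩ : G0 {y} ∈ D) (hG0s {y} (by simp))
      · intro y hy
        obtain ⟨_, ⟨s, rfl⟩, hys⟩ := Set.mem_iUnion₂.mp hy
        exact ha s.1 s.2 hys
  have hwit : ∀ a : PK (Order.succ ν) X, ∃ s : Finset X, a ∉ C →
      ((s : Set X) ⊆ a.1 ∧ ¬ G0 s ≤ a) := by
    intro a
    by_cases ha : a ∈ C
    · exact ⟨∅, fun h => absurd ha h⟩
    · have h1 : ¬ ∀ s : Finset X, (s : Set X) ⊆ a.1 → G0 s ≤ a := fun h => ha (hclos a h)
      push Not at h1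
      obtain ⟨s, hs1, hs2⟩ := h1
      exact ⟨s, fun _ => ⟨hs1, hs2⟩⟩
  choose w hw using hwit
  -- decide the size of `w`
  obtain ⟨q₁, hq₁, ⟨n⟩, hn⟩ := G.dec (ULift.{u} ℕ) (fun a => ⟨(w a).card⟩)
    ((Cardinal.mk_le_aleph0).trans hτ) q
  let w' : PK (Order.succ ν) X → Finset X := fun a => if (w a).card = n then w a else ∅
  have hw'n : ∀ a, (w' a).card ≤ n := by
    intro a
    simp only [w']
    split_ifs with h
    · exact h.le
    · simp
  have hsub : {a | (w' a : Set X) ⊆ a.1} ∈ G.F q₁ := by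
    refine Filter.mem_of_superset (G.memMono hq₁ hcon) ?_
    intro a ha
    show (w' a : Set X) ⊆ a.1
    simp only [w']
    split_ifs with h
    · exact (hw a ha).1
    · simp
  obtain ⟨q₂, hq₂, x, hx⟩ := exists_normal_finset hν G hG x₀ n q₁ w' hw'n hsub
  let x' : PK (Order.succ ν) X := ⟨⋃ s : {s : Finset X // (s : Set X) ⊆ x.1}, (G0 s.1).1,
    mk_iUnion_lt_succ hν (hfinle x) (fun s => G0 s.1)⟩
  obtain ⟨a, ⟨⟨ha1, ha2⟩, ha3⟩, ha4⟩ := G.nonempty_of_mem (Filter.inter_mem (Filter.inter_mem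
    (Filter.inter_mem hx (G.cone q₂ x')) (G.memMono hq₂ hn)) (G.memMono (hq₂.trans hq₁) hcon))
  have hcard : (w a).card = n := by
    have : (⟨(w a).card⟩ : ULift.{u} ℕ) = ⟨n⟩ := ha3
    simpa using this
  have hw'a : w' a = w a := by simp only [w']; rw [if_pos hcard]
  apply (hw a ha4).2
  have h1 : (w a : Set X) ⊆ x.1 := by rw [← hw'a]; exact ha1
  exact (Set.subset_iUnion (fun s : {s : Finset X // (s : Set X) ⊆ x.1} => (G0 s.1).1)
    ⟨w a, h1⟩).trans ha2

end Pool.Agent.Helper18.TP
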