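import Pool.Agent.Helper18.TP.Itp

/-!
# ITP at the successor of a singular strong limit cardinal: the theorem
-/

open Cardinal Set

universe u v

namespace Pool.Agent.Helper18.TP

variable {X : Type u} {ν : Cardinal.{u}}

/-- the subset of `X` given by a thread -/
def bset {d : PK (Order.succ ν) X → Set X} (t : ∀ a, (lsys d).L a) : Set X :=
  ⋃ a, (t a).1

lemma bset_inter (hν : ℵ₀ ≤ ν) {d : PK (Order.succ ν) X → Set X} (t : ∀ a, (lsys d).L a)
    (ht : IsThread (lsys d) t) (x : PK (Order.succ ν) X) : bset t ∩ x.1 = (t x).1 := by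
  have hr : ∀ a b : PK (Order.succ ν) X, ∀ h : a ≤ b, (t b).1 ∩ a.1 = (t a).1 := by
    intro a b h
    have := congrArg Subtype.val (ht h)
    exact this
  have hsub : ∀ a, (t a).1 ⊆ a.1 := by
    intro a
    obtain ⟨c, _, h⟩ := (t a).2
    rw [h]
    exact Set.inter_subset_right
  apply Set.Subset.antisymm
  · rintro y ⟨hy1, hy2⟩
    obtain ⟨a, ha⟩ := Set.mem_iUnion.mp hy1
    obtain ⟨c, hc1, hc2⟩ := (upDir_PK hν).two hν a x
    have h1 : y ∈ (t c).1 := by
      rw [← hr a c hc1] at ha; exact ha.1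
    rw [← hr x c hc2]
    exact ⟨h1, hy2⟩
  · intro y hy
    exact ⟨Set.mem_iUnion.mpr ⟨x, hy⟩, hsub x hy⟩

/-- **ITP from normal closed generic ultrafilters.** -/
theorem itp_list (hν : ν.IsStrongLimit) (hsing : ν.ord.cof < ν) (x₀ : X)
    (hG : ∀ τ < ν, ∃ G : GenUF.{u, v} (PK (Order.succ ν) X) ν.ord.cof τ, G.Normal)
    (d : PK (Order.succ ν) X → Set X) (hd : IsList d) (hthin : IsThin d) :
    ∃ b, IsIneffable d b := by
  classical
  obtain ⟨D⟩ := exists_data hν hsing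
  have hν0 : ℵ₀ ≤ ν := hν.aleph0_le
  have hθ0 : ℵ₀ ≤ ν.ord.cof := aleph0_le_cof' hν
  have hν1 : ℵ₀ < ν := hθ0.trans_lt hsing
  have h2 : (2 : Cardinal.{u}) ≤ ν.ord.cof :=
    (Cardinal.natCast_lt_aleph0 (n := 2)).le.trans hθ0
  have hI : UpDir ν (PK (Order.succ ν) X) := upDir_PK hν0
  let S := lsys d
  have hL : ∀ a, #(S.L a) ≤ ν := fun a => Order.lt_succ_iff.mp (hthin a)
  obtain ⟨G, hGn⟩ := hG _ hsing
  obtain ⟨σ, β₁, A, q₂, hσ, hσν, hA, hstep⟩ := narrow_step G S (lpt d) hI h2 hν1 hL D.hΘ.le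
    D.hopt.le (D.hΘ.le.trans hsing.le) D.κ D.hκ D.hcov D.M D.hMν D.hsum D.hprod
  obtain ⟨G', -⟩ := hG (max σ ν.ord.cof) (max_lt hσν hsing)
  obtain ⟨B, t, z, hB, ht, hz, hcap⟩ := capture G G' S hI hν1 hσ hσν (le_max_left _ _) hL D.hΘ.le
    (D.hopt.le.trans (le_max_right _ _)) D.M D.hMν D.hsum D.hprod (lpt d) β₁ A hA q₂ hstep
  -- a level which separates the branches
  have hsep : ∀ p : B × B, ∃ x : PK (Order.succ ν) X,
      bset (t p.1) ≠ bset (t p.2) → (t p.1 x).1 ≠ (t p.2 x).1 := by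
    intro p
    by_cases h : bset (t p.1) = bset (t p.2)
    · exact ⟨z, fun h' => absurd h h'⟩
    · have h1 : ∃ x, (t p.1 x).1 ≠ (t p.2 x).1 := by
        by_contra hcon
        push Not at hcon
        apply h
        unfold bset
        exact Set.iUnion_congr hcon
      obtain ⟨x, hx⟩ := h1
      exact ⟨x, fun _ => hx⟩
  choose xs hxs using hsep
  have hBB : #(B × B) ≤ ν := by
    rw [Cardinal.mk_prod]
    simp only [Cardinal.lift_id]
    exact ((mul_le_mul' hB hB).trans (Cardinal.mul_eq_self hσ).le).trans hσν.le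
  obtain ⟨z', hz'⟩ := hI (B × B) xs hBB
  obtain ⟨z₁, hz₁, hz₁'⟩ := hI.two hν0 z z'
  have hr : ∀ (η : B) (a b : PK (Order.succ ν) X) (_ : a ≤ b), (t η b).1 ∩ a.1 = (t η a).1 :=
    fun η a b h => congrArg Subtype.val (ht η h)
  have hsep' : ∀ η η' : B, (t η z₁).1 = (t η' z₁).1 → bset (t η) = bset (t η') := by
    intro η η' h
    by_contra hne
    apply hxs (η, η') hne
    have hle : xs (η, η') ≤ z₁ := (hz' _).trans hz₁'
    show (t η _).1 = (t η' _).1
    rw [← hr η _ _ hle, ← hr η' _ _ hle, h]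
  -- the generic point lies on one of the branches
  have hcap' : ∀ x, z₁ ≤ x → ∀ q ≤ q₂, ∃ q' ≤ q,
      {a : PK (Order.succ ν) X | x ≤ a ∧ ∃ η, d a ∩ x.1 = (t η x).1} ∈ G.F q' := by
    intro x hx q hq
    obtain ⟨q', hq', h | h⟩ := G.decOr (S := S) (d := lpt d) h2 x {u | ∃ η, u = t η x} q
    · refine ⟨q', hq', Filter.mem_of_superset h ?_⟩
      rintro a ⟨ha1, η, hη⟩
      refine ⟨ha1, η, ?_⟩
      have h3 := congrArg Subtype.val hη
      have h4 : d a ∩ a.1 ∩ x.1 = (t η x).1 := h3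
      rw [Set.inter_eq_self_of_subset_left (hd a)] at h4
      exact h4
    · exact absurd h (hcap x (hz₁.trans hx) q' (hq'.trans hq))
  let N : Set (PK (Order.succ ν) X) := {a | z₁ ≤ a ∧ ∀ η, d a ≠ bset (t η) ∩ a.1}
  have hN : ∀ q ≤ q₂, N ∉ G.F q := by
    intro q hq hcon
    obtain ⟨q₃, hq₃, h3⟩ := hcap' z₁ le_rfl q hq
    let P : PK (Order.succ ν) X → Prop := fun a =>
      a ∈ N ∧ ∃ η, d a ∩ z₁.1 = (t η z₁).1
    have hw : ∀ a, ∃ p : B × X, P a → (d a ∩ z₁.1 = (t p.1 z₁).1 ∧ p.2 ∈ a.1 ∧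
        ¬ (p.2 ∈ d a ↔ p.2 ∈ bset (t p.1))) := by
      intro a
      by_cases hP : P a
      · obtain ⟨⟨_, h4⟩, η, hη⟩ := hP
        have h5 : ∃ y, y ∈ a.1 ∧ ¬ (y ∈ d a ↔ y ∈ bset (t η)) := by
          by_contra hcon
          push Not at hcon
          apply h4 η
          ext y
          constructor
          · intro hy
            exact ⟨(hcon y (hd a hy)).mp hy, hd a hy⟩
          · rintro ⟨hy1, hy2⟩
            exact (hcon y hy2).mpr hy1
        obtain ⟨y, hy1, hy2⟩ := h5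
        exact ⟨(η, y), fun _ => ⟨hη, hy1, hy2⟩⟩
      · by_cases hBne : Nonempty B
        · exact ⟨(hBne.some, x₀), fun h => absurd h hP⟩
        · exfalso
          obtain ⟨q₄, _, h4⟩ := hcap' z₁ le_rfl q hq
          obtain ⟨_, _, η, _⟩ := G.nonempty_of_mem h4
          exact hBne ⟨η⟩
    choose w hw using hw
    have hf : {a : PK (Order.succ ν) X | (w a).2 ∈ a.1} ∈ G.F q₃ := by
      refine Filter.mem_of_superset (Filter.inter_mem (G.memMono hq₃ hcon) h3) ?_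
      rintro a ⟨ha1, _, ha2⟩
      exact (hw a ⟨ha1, ha2⟩).2.1
    obtain ⟨q₄, hq₄, x, hx⟩ := hGn q₃ (fun a => (w a).2) hf
    obtain ⟨x', hx1, hx2⟩ := hI.two hν0 x z₁
    obtain ⟨q₅, hq₅, h5⟩ := hcap' x' hx2 q₄ ((hq₄.trans hq₃).trans hq)
    obtain ⟨a, ⟨⟨ha1, ha2⟩, ha3⟩, ha4⟩ := G.nonempty_of_mem (Filter.inter_mem (Filter.inter_mem
      (G.memMono (hq₅.trans (hq₄.trans hq₃)) hcon) h5 |> fun h => Filter.inter_mem
        (Filter.inter_mem (G.memMono (hq₅.trans (hq₄.trans hq₃)) hcon) h5)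
        (G.memMono (hq₅.trans hq₄) h3)) (G.memMono hq₅ hx))
    obtain ⟨ha2a, η, hη⟩ := ha2
    obtain ⟨_, ha3'⟩ := ha3
    obtain ⟨hw1, hw2, hw3⟩ := hw a ⟨ha1, ha3'⟩
    -- the two branches coincide
    have e1 : (t η z₁).1 = d a ∩ z₁.1 := by
      rw [← hr η _ _ hx2, ← hη, Set.inter_assoc]
      have : z₁.1 ⊆ x'.1 := hx2
      rw [Set.inter_eq_self_of_subset_right this]
    have e2 : bset (t η) = bset (t (w a).1) := hsep' _ _ (e1.trans hw1)
    apply hw3
    have hyx : (w a).2 ∈ x'.1 := hx1 ha4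
    rw [← e2]
    constructor
    · intro hy
      have : (w a).2 ∈ (t η x').1 := by rw [← hη]; exact ⟨hy, hyx⟩
      rw [← bset_inter hν0 (t η) (ht η)] at this
      exact this.1
    · intro hy
      have : (w a).2 ∈ (t η x').1 := by
        rw [← bset_inter hν0 (t η) (ht η)]; exact ⟨hy, hyx⟩
      rw [← hη] at this
      exact this.1
  -- conclusion
  by_contra hcon
  push Not at hcon
  have hclub : ∀ η : B, ∃ C, IsClub C ∧
      ¬ ({a : PK (Order.succ ν) X | bset (t η) ∩ a.1 = d a} ∩ C).Nonempty := by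
    intro η
    have h := hcon (bset (t η))
    unfold IsIneffable IsStat at h
    push Not at h
    obtain ⟨C, h1, h2⟩ := h
    exact ⟨C, h1, Set.not_nonempty_iff_eq_empty.mpr h2⟩
  choose C hC1 hC2 using hclub
  have hCC : IsClub (⋂ η, C η) := isClub_iInter hν0 (hB.trans hσν.le) C hC1
  obtain ⟨q₃, hq₃, ⟨b⟩, hb⟩ := G.dec (ULift.{u} Bool)
    (fun a => ⟨if a ∈ N then true else false⟩) (by simpa using h2) q₂
  have hNc : Nᶜ ∈ G.F q₃ := by
    cases b with
    | true =>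
      exfalso
      refine hN q₃ hq₃ (Filter.mem_of_superset hb ?_)
      intro a ha
      have h3 : (⟨if a ∈ N then true else false⟩ : ULift.{u} Bool) = ⟨true⟩ := ha
      by_contra hne
      simp [hne] at h3
    | false =>
      refine Filter.mem_of_superset hb ?_
      intro a ha hmem
      have h3 : (⟨if a ∈ N then true else false⟩ : ULift.{u} Bool) = ⟨false⟩ := ha
      simp [hmem] at h3
  have hgood : ∃ a, a ∈ (⋂ η, C η) ∧ a ∉ N ∧ z₁ ≤ a := by
    by_contra hno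
    push Not at hno
    refine club_mem hν0 hθ0 G hGn x₀ (⋂ η, C η) hCC q₃ ?_
    refine Filter.mem_of_superset (Filter.inter_mem hNc (G.cone q₃ z₁)) ?_
    rintro a ⟨ha1, ha2⟩ hmem
    exact hno a hmem ha1 ha2
  obtain ⟨a, ha1, ha2, ha3⟩ := hgood
  have h4 : ∃ η, d a = bset (t η) ∩ a.1 := by
    by_contra h
    push Not at h
    exact ha2 ⟨ha3, h⟩
  obtain ⟨η, hη⟩ := h4
  exact hC2 η ⟨a, hη.symm, Set.mem_iInter.mp ha1 η⟩

/-- **ITP at `ν⁺`.** -/
theorem itp_succ (hν : ν.IsStrongLimit) (hsing : ν.ord.cof < ν)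
    (hG : ∀ X : Type u, Order.succ ν ≤ #X → ∀ τ < ν,
      ∃ G : GenUF.{u, v} (PK (Order.succ ν) X) ν.ord.cof τ, G.Normal) :
    ITP (Order.succ ν) := by
  intro X hX d hd hthin
  have hne : Nonempty X := by
    rw [← Cardinal.mk_ne_zero_iff]
    exact ((Order.bot_lt_succ ν).trans_le hX).ne'
  exact itp_list hν hsing hne.some (hG X hX) d hd hthin

end Pool.Agent.Helper18.TP
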