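import Mathlib

/-!
# Lists on `P_κ X`, clubs, stationary sets, and the tree properties
-/

open Cardinal Set

universe u

namespace Pool.Agent.Helper18.TP

/-- `P_κ X`, the collection of subsets of `X` of size less than `κ`. -/
def PK (κ : Cardinal.{u}) (X : Type u) : Type u := {a : Set X // #a < κ}

instance (κ : Cardinal.{u}) (X : Type u) : PartialOrder (PK κ X) :=
  inferInstanceAs (PartialOrder {a : Set X // #a < κ})

/-- `d` is a `(κ, X)`-list. -/
def IsList {κ : Cardinal.{u}} {X : Type u} (d : PK κ X → Set X) : Prop := ∀ a, d a ⊆ a.1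

/-- the list `d` is thin -/
def IsThin {κ : Cardinal.{u}} {X : Type u} (d : PK κ X → Set X) : Prop :=
  ∀ x : PK κ X, #{y : Set X | ∃ a, x ≤ a ∧ y = d a ∩ x.1} < κ

/-- `b` is a cofinal branch of `d`. -/
def IsCofBranch {κ : Cardinal.{u}} {X : Type u} (d : PK κ X → Set X) (b : Set X) : Prop :=
  ∀ a : PK κ X, ∃ z, a ≤ z ∧ b ∩ a.1 = d z ∩ a.1

/-- `C` is a club in `P_κ X`: cofinal, and closed under unions of chains of size less than `κ`. -/
def IsClub {κ : Cardinal.{u}} {X : Type u} (C : Set (PK κ X)) : Prop :=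
  (∀ x, ∃ c ∈ C, x ≤ c) ∧
  ∀ D ⊆ C, D.Nonempty → IsChain (· ≤ ·) D → #D < κ →
    ∀ u : PK κ X, u.1 = (⋃ c ∈ D, c.1) → u ∈ C

/-- `S` is stationary in `P_κ X`: it meets every club. -/
def IsStat {κ : Cardinal.{u}} {X : Type u} (S : Set (PK κ X)) : Prop :=
  ∀ C, IsClub C → (S ∩ C).Nonempty

/-- `b` is an ineffable branch of `d`. -/
def IsIneffable {κ : Cardinal.{u}} {X : Type u} (d : PK κ X → Set X) (b : Set X) : Prop :=
  IsStat {a : PK κ X | b ∩ a.1 = d a}

/-- the strong tree property at `κ` -/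
def StrongTreeProperty (κ : Cardinal.{u}) : Prop :=
  ∀ X : Type u, κ ≤ #X → ∀ d : PK κ X → Set X, IsList d → IsThin d → ∃ b, IsCofBranch d b

/-- the principle `ITP` at `κ` (the super tree property) -/
def ITP (κ : Cardinal.{u}) : Prop :=
  ∀ X : Type u, κ ≤ #X → ∀ d : PK κ X → Set X, IsList d → IsThin d → ∃ b, IsIneffable d b

section

variable {κ : Cardinal.{u}} {X : Type u}

lemma isClub_Ici (hκ : ℵ₀ ≤ κ) (a : PK κ X) : IsClub {z : PK κ X | a ≤ z} := by
  refine ⟨?_, ?_⟩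
  · intro x
    refine ⟨⟨a.1 ∪ x.1, ?_⟩, ?_, ?_⟩
    · exact (Cardinal.mk_union_le _ _).trans_lt (Cardinal.add_lt_of_lt hκ a.2 x.2)
    · exact Set.subset_union_left
    · exact Set.subset_union_right
  · intro D hD hne _ _ u hu
    obtain ⟨c, hc⟩ := hne
    show a.1 ⊆ u.1
    rw [hu]
    exact (hD hc : a ≤ c).trans (Set.subset_biUnion_of_mem hc)

lemma IsIneffable.isCofBranch (hκ : ℵ₀ ≤ κ) {d : PK κ X → Set X} {b : Set X}
    (h : IsIneffable d b) : IsCofBranch d b := by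
  intro a
  obtain ⟨z, hz1, hz2⟩ := h _ (isClub_Ici hκ a)
  refine ⟨z, hz2, ?_⟩
  have h1 : b ∩ z.1 = d z := hz1
  have h2 : a.1 ⊆ z.1 := hz2
  rw [← h1]
  ext y
  constructor
  · rintro ⟨h3, h4⟩
    exact ⟨⟨h3, h2 h4⟩, h4⟩
  · rintro ⟨⟨h3, _⟩, h4⟩
    exact ⟨h3, h4⟩

lemma ITP.strongTreeProperty (hκ : ℵ₀ ≤ κ) (h : ITP κ) : StrongTreeProperty κ := by
  intro X hX d h1 h2
  obtain ⟨b, hb⟩ := h X hX d h1 h2
  exact ⟨b, hb.isCofBranch hκ⟩

/-- union of few members of `P_κ X` for `κ = ν⁺` -/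
lemma mk_iUnion_lt_succ {ν : Cardinal.{u}} (hν : ℵ₀ ≤ ν) {K : Type u} (hK : #K ≤ ν)
    (f : K → PK (Order.succ ν) X) : #(⋃ k, (f k).1 : Set X) < Order.succ ν := by
  rw [Order.lt_succ_iff]
  refine (Cardinal.mk_iUnion_le_sum_mk).trans ?_
  refine (Cardinal.sum_le_sum _ (fun _ => ν) (fun k => Order.lt_succ_iff.mp (f k).2)).trans ?_
  rw [Cardinal.sum_const]
  simp only [Cardinal.lift_id]
  exact (mul_le_mul' hK le_rfl).trans (Cardinal.mul_eq_self hν).le

/-- Intersections of at most `ν` clubs in `P_{ν⁺} X` are clubs. -/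
lemma isClub_iInter {ν : Cardinal.{u}} (hν : ℵ₀ ≤ ν) {K : Type u} (hK : #K ≤ ν)
    (C : K → Set (PK (Order.succ ν) X)) (hC : ∀ k, IsClub (C k)) : IsClub (⋂ k, C k) := by
  classical
  refine ⟨?_, ?_⟩
  · intro x
    choose g hg1 hg2 using fun k => (hC k).1
    let nx : PK (Order.succ ν) X → PK (Order.succ ν) X := fun y =>
      ⟨y.1 ∪ ⋃ k, (g k y).1, by
        refine (Cardinal.mk_union_le _ _).trans_lt ?_
        exact Cardinal.add_lt_of_lt (hν.trans (Order.le_succ ν)) y.2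
          (mk_iUnion_lt_succ hν hK (fun k => g k y))⟩
    let s : ℕ → PK (Order.succ ν) X := fun n => nx^[n] x
    have hs : ∀ n, s (n + 1) = nx (s n) := fun n => Function.iterate_succ_apply' nx n x
    have hle : ∀ n, s n ≤ s (n + 1) := fun n => by
      rw [hs]; exact Set.subset_union_left
    have hmono : Monotone s := monotone_nat_of_le_succ hle
    have hgle : ∀ k n, g k (s n) ≤ s (n + 1) := fun k n => by
      rw [hs]
      exact (Set.subset_iUnion (fun k => (g k (s n)).1) k).trans Set.subset_union_right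
    have hcard : #(⋃ n : ULift.{u} ℕ, (s n.down).1 : Set X) < Order.succ ν :=
      mk_iUnion_lt_succ hν ((Cardinal.mk_le_aleph0).trans hν) (fun n : ULift.{u} ℕ => s n.down)
    let w : PK (Order.succ ν) X := ⟨⋃ n : ULift.{u} ℕ, (s n.down).1, hcard⟩
    refine ⟨w, ?_, ?_⟩
    · refine Set.mem_iInter.mpr (fun k => ?_)
      refine (hC k).2 (Set.range (fun n : ℕ => g k (s n))) ?_ ⟨_, ⟨0, rfl⟩⟩ ?_ ?_ w ?_
      · rintro _ ⟨n, rfl⟩; exact hg1 k _
      · have hm : Monotone (fun n : ℕ => g k (s n)) :=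
          monotone_nat_of_le_succ (fun n => (hgle k n).trans (hg2 k (s (n + 1))))
        exact hm.isChain_range
      · refine lt_of_le_of_lt (Cardinal.mk_range_le_lift (f := fun n : ℕ => g k (s n)) |> fun h => ?_)
          (Order.lt_succ ν)
        · have : #(Set.range (fun n : ℕ => g k (s n))) ≤ ℵ₀ :=
            (Set.countable_range _).le_aleph0
          exact this.trans hν
      · apply Set.Subset.antisymm
        · intro y hy
          obtain ⟨⟨n⟩, hn⟩ := Set.mem_iUnion.mp hy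
          exact Set.mem_biUnion (⟨n, rfl⟩ : g k (s n) ∈ Set.range (fun n : ℕ => g k (s n)))
            (hg2 k (s n) hn)
        · intro y hy
          obtain ⟨c, ⟨n, rfl⟩, hn⟩ := Set.mem_iUnion₂.mp hy
          exact Set.mem_iUnion.mpr ⟨⟨n + 1⟩, hgle k n hn⟩
    · exact (Set.subset_iUnion (fun n : ULift.{u} ℕ => (s n.down).1) ⟨0⟩)
  · intro D hD hne hch hcard u hu
    exact Set.mem_iInter.mpr (fun k => (hC k).2 D (hD.trans (Set.iInter_subset _ k)) hne hch
      hcard u hu)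

end

end Pool.Agent.Helper18.TP
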