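import Pool.Agent.Helper18.TP.Split

/-!
# Threads through inverse systems with small levels (Kurepa)
-/

open Cardinal Set

universe u v

namespace Pool.Agent.Helper18.TP

variable {I : Type u} [Preorder I]

/-- If the levels have size at most `μ`, the projections are onto and `I` is `μ⁺`-directed, then
some level determines all later ones. -/
lemma exists_injOn (S : InvSys I) (E : ∀ a, Set (S.L a)) {μ : Cardinal.{u}} (hμ : ℵ₀ ≤ μ)
    (hI : UpDir (Order.succ μ) I) (hE : ∀ a, #(E a) ≤ μ)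
    (surj : ∀ {a b : I} (h : a ≤ b), ∀ x ∈ E a, ∃ y ∈ E b, S.π h y = x) :
    ∃ x₀, ∀ y (h : x₀ ≤ y), Set.InjOn (S.π h) (E y) := by
  classical
  by_contra hcon
  push Not at hcon
  have H : ∀ x₀ : I, ∃ y, ∃ h : x₀ ≤ y, ∃ e e' : S.L y, e ∈ E y ∧ e' ∈ E y ∧
      S.π h e = S.π h e' ∧ e ≠ e' := by
    intro x₀
    obtain ⟨y, h, hy⟩ := hcon x₀
    unfold Set.InjOn at hy
    push Not at hy
    obtain ⟨e, he, e', he', h1, h2⟩ := hy
    exact ⟨y, h, e, e', he, he', h1, h2⟩
  choose nx hnx e e' he he' hee hne using H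
  -- a chain of length `μ⁺`
  let W : Type u := (Order.succ μ).ord.ToType
  have hW : #W = Order.succ μ := Cardinal.mk_ord_toType _
  have ub : ∀ (J : Type u), #J ≤ Order.succ μ → ∀ s : J → I, ∃ b, ∀ j, s j ≤ b :=
    fun J hJ s => hI J s hJ
  let z : W → I := (wellFounded_lt (α := W)).fix (fun w rec =>
    (ub {w' : W // w' < w} ((Cardinal.mk_subtype_le _).trans hW.le)
      (fun w' => nx (rec w'.1 w'.2))).choose)
  have hz : ∀ w w' : W, w' < w → nx (z w') ≤ z w := by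
    intro w w' h
    have h1 : z w = (ub {w' : W // w' < w} ((Cardinal.mk_subtype_le _).trans hW.le)
      (fun w' => nx (z w'.1))).choose := by
      simp only [z]
      rw [WellFounded.fix_eq]
    rw [h1]
    exact (ub {w' : W // w' < w} ((Cardinal.mk_subtype_le _).trans hW.le)
      (fun w' => nx (z w'.1))).choose_spec ⟨w', h⟩
  obtain ⟨b, hb⟩ := ub W hW.le (fun w => nx (z w))
  have l1 : ∀ w, ∃ y ∈ E b, S.π (hb w) y = e (z w) := fun w => surj (hb w) _ (he _)
  have l2 : ∀ w, ∃ y ∈ E b, S.π (hb w) y = e' (z w) := fun w => surj (hb w) _ (he' _)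
  choose f hf hf' using l1
  choose g hg hg' using l2
  have key : ∀ w w' : W, w < w' → ¬ (f w = f w' ∧ g w = g w') := by
    rintro w w' hlt ⟨h1, h2⟩
    have hle : nx (z w) ≤ z w' := hz w' w hlt
    have a1 : S.π (hle.trans (hnx (z w'))) (S.π (hb w') (f w'))
        = S.π (hle.trans (hnx (z w'))) (S.π (hb w') (g w')) := by
      rw [hf' w', hg' w', ← S.π_trans hle (hnx (z w')), ← S.π_trans hle (hnx (z w')), hee]
    rw [S.π_trans, S.π_trans, ← h1, ← h2] at a1
    have a2 : S.π (hb w) (f w) = S.π (hb w) (g w) := a1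
    rw [hf', hg'] at a2
    exact hne _ a2
  have hinj : Function.Injective (fun w : W => ((⟨f w, hf w⟩, ⟨g w, hg w⟩) : E b × E b)) := by
    intro w w' h
    simp only [Prod.mk.injEq, Subtype.mk.injEq] at h
    rcases lt_trichotomy w w' with h1 | h1 | h1
    · exact absurd h (key w w' h1)
    · exact h1
    · exact absurd ⟨h.1.symm, h.2.symm⟩ (key w' w h1)
  have h3 : #W ≤ #(E b × E b) := Cardinal.mk_le_of_injective hinj
  rw [hW, Cardinal.mk_prod] at h3
  simp only [Cardinal.lift_id] at h3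
  have h4 : #(E b) * #(E b) ≤ μ := (mul_le_mul' (hE b) (hE b)).trans (Cardinal.mul_eq_self hμ).le
  exact absurd (h3.trans h4) (not_le.mpr (Order.lt_succ μ))

/-- **Kurepa's lemma for directed systems.** -/
theorem thread_of_small (S : InvSys I) (E : ∀ a, Set (S.L a)) {μ : Cardinal.{u}} (hμ : ℵ₀ ≤ μ)
    (hI : UpDir (Order.succ μ) I) (hE : ∀ a, #(E a) ≤ μ) (hne : ∀ a, (E a).Nonempty)
    (maps : ∀ {a b : I} (h : a ≤ b), ∀ y ∈ E b, S.π h y ∈ E a)
    (surj : ∀ {a b : I} (h : a ≤ b), ∀ x ∈ E a, ∃ y ∈ E b, S.π h y = x) : S.HasThread := by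
  classical
  obtain ⟨x₀, hx₀⟩ := exists_injOn S E hμ hI hE surj
  obtain ⟨u₀, hu₀⟩ := hne x₀
  have up : ∀ a b : I, ∃ c, a ≤ c ∧ b ≤ c := by
    intro a b
    obtain ⟨c, hc⟩ := hI (ULift.{u} Bool) (fun i => if i.down then a else b)
      (by
        refine le_trans (Cardinal.mk_le_aleph0) ?_
        exact hμ.trans (Order.le_succ μ))
    exact ⟨c, by simpa using hc ⟨true⟩, by simpa using hc ⟨false⟩⟩
  have hl : ∀ y (h : x₀ ≤ y), ∃ v ∈ E y, S.π h v = u₀ := fun y h => surj h u₀ hu₀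
  choose v hv hv' using hl
  have hcomp : ∀ y y' (h : x₀ ≤ y) (h' : y ≤ y'), S.π h' (v y' (h.trans h')) = v y h := by
    intro y y' h h'
    apply hx₀ y h (maps h' _ (hv _ _)) (hv _ _)
    rw [S.π_trans, hv', hv']
  choose w hw1 hw2 using fun a : I => up a x₀
  refine ⟨fun a => S.π (hw1 a) (v (w a) (hw2 a)), ?_⟩
  intro a b hab
  obtain ⟨c, hc1, hc2⟩ := up (w a) (w b)
  have e1 : v (w b) (hw2 b) = S.π hc2 (v c ((hw2 b).trans hc2)) := (hcomp _ _ _ _).symm
  have e2 : v (w a) (hw2 a) = S.π hc1 (v c ((hw2 a).trans hc1)) := (hcomp _ _ _ _).symm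
  change S.π hab (S.π (hw1 b) (v (w b) (hw2 b))) = S.π (hw1 a) (v (w a) (hw2 a))
  rw [e1, e2, S.π_trans, S.π_trans, S.π_trans]

end Pool.Agent.Helper18.TP
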