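import Pool.Agent.Helper18.TP.Narrow
import Pool.Agent.Helper18.TP.Small

/-!
# Closed generic ultrafilters give threads
-/

open Cardinal Set

universe u v

namespace Pool.Agent.Helper18.TP

variable {I : Type u} [Preorder I]

lemma UpDir.mono {ν μ : Cardinal.{u}} (h : UpDir ν I) (hμ : μ ≤ ν) : UpDir μ I :=
  fun K f hK => h K f (hK.trans hμ)

lemma UpDir.two {ν : Cardinal.{u}} (h : UpDir ν I) (hν : ℵ₀ ≤ ν) (a b : I) :
    ∃ c, a ≤ c ∧ b ≤ c := by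
  obtain ⟨c, hc⟩ := h (ULift.{u} Bool) (fun i => if i.down then a else b)
    ((Cardinal.mk_le_aleph0).trans hν)
  exact ⟨c, by simpa using hc ⟨true⟩, by simpa using hc ⟨false⟩⟩

/-- enumeration of a small set -/
lemma exists_enum {X : Type u} [Nonempty X] {Y : Type u} (A : Set X) (h : #A ≤ #Y) :
    ∃ e : Y → X, A ⊆ Set.range e := by
  classical
  obtain ⟨f⟩ := h
  refine ⟨fun y => if h : ∃ x : A, f x = y then h.choose.1 else Classical.arbitrary X, ?_⟩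
  intro x hx
  refine ⟨f ⟨x, hx⟩, ?_⟩
  have h1 : ∃ x' : A, f x' = f ⟨x, hx⟩ := ⟨_, rfl⟩
  simp only
  rw [dif_pos h1]
  have h2 := f.injective h1.choose_spec
  rw [h2]

/-- **From a narrow subsystem to a thread.** -/
theorem thread_of_narrow {θ τ ν σ : Cardinal.{u}} (G : GenUF.{u, v} I θ τ) (S : InvSys I)
    (hI : UpDir ν I) (hσ : ℵ₀ ≤ σ) (hσν : σ < ν) (hστ : σ ≤ τ) (hL : ∀ a, #(S.L a) ≤ ν)
    (hne : ∀ a, Nonempty (S.L a))
    {Θ : Type u} [LinearOrder Θ] [WellFoundedLT Θ] (hΘ : #Θ ≤ θ) (hΘτ : #(Option Θ) ≤ τ)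
    (M : Θ → Type u) [∀ i, Nonempty (M i)] (hMν : ∀ i, #(M i) < ν)
    (hsum : #(Σ i : Θ, ∀ j : {j : Θ // j < i}, M j.1) ≤ ν)
    (hprod : ν < #(∀ i, M i))
    (β₁ : I) (A : ∀ a, Set (S.L a)) (hA : ∀ a, #(A a) ≤ σ)
    (hnar : ∀ α β (h : α ≤ β), β₁ ≤ α → ∃ v ∈ A β, S.π h v ∈ A α) : S.HasThread := by
  classical
  let Y : Type u := σ.out
  have hY : #Y = σ := Cardinal.mk_out σ
  have hYne : Nonempty Y := by
    rw [← Cardinal.mk_ne_zero_iff, hY]
    exact (Cardinal.aleph0_pos.trans_le hσ).ne'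
  have hen : ∀ a, ∃ e : Y → S.L a, A a ⊆ Set.range e := fun a =>
    exists_enum (A a) ((hA a).trans hY.ge)
  choose e he using hen
  let d : Y → ∀ a, S.L a := fun η a => e a η
  -- every point is hit by some index
  have hcov : ∀ α a (h : α ≤ a), β₁ ≤ α → ∃ η, S.π h (d η a) ∈ A α := by
    intro α a h hα
    obtain ⟨v, hv, hv'⟩ := hnar α a h hα
    obtain ⟨η, hη⟩ := he a hv
    exact ⟨η, by simp only [d]; rw [hη]; exact hv'⟩
  -- stabilization
  have stab : ∃ (η : Y) (qs : G.Q), ∀ q ≤ qs, ∀ α, β₁ ≤ α → ∃ α', α ≤ α' ∧ ∃ q' ≤ q,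
      hit S (d η) α' (A α') ∈ G.F q' := by
    by_contra hcon
    push Not at hcon
    let D : Y → Set G.Q := fun η => {q | ∃ α, β₁ ≤ α ∧ ∀ α', α ≤ α' → ∀ q' ≤ q,
      hit S (d η) α' (A α') ∉ G.F q'}
    obtain ⟨q₁⟩ := G.ne
    obtain ⟨q, -, hq⟩ := G.distr Y (hY.le.trans hστ) D
      (fun η q q' hle ⟨α, h1, h2⟩ => ⟨α, h1, fun α' h3 q'' h4 => h2 α' h3 q'' (h4.trans hle)⟩)
      (fun η q => by
        obtain ⟨q', h1, α, h2, h3⟩ := hcon η q
        exact ⟨q', h1, α, h2, h3⟩) q₁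
    choose al hal1 hal2 using hq
    obtain ⟨α, hα⟩ := hI Y al (hY.le.trans hσν.le)
    have hβα : β₁ ≤ α := (hal1 (Classical.arbitrary Y)).trans (hα _)
    let g : I → Y := fun a => if h : α ≤ a then (hcov α a h hβα).choose else Classical.arbitrary Y
    obtain ⟨q', hq', η, hη⟩ := G.dec Y g (hY.le.trans hστ) q
    refine hal2 η α (hα η) q' hq' ?_
    refine Filter.mem_of_superset (Filter.inter_mem hη (G.cone q' α)) ?_
    rintro a ⟨ha1, ha2⟩
    have h1 : g a = η := ha1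
    have h2 : g a = (hcov α a ha2 hβα).choose := by
      simp only [g]; rw [dif_pos (show α ≤ a from ha2)]
    refine ⟨ha2, ?_⟩
    rw [← h1, h2]
    exact (hcov α a ha2 hβα).choose_spec
  obtain ⟨η, qs, hstab⟩ := stab
  obtain ⟨q₀, hq₀, i₀, hi₀⟩ := split G S (d η) hI hL hΘ hΘτ M hsum hprod qs
  let E : ∀ a, Set (S.L a) := fun a => {u | Pos G S (d η) q₀ a {u}}
  let μ : Cardinal.{u} := max (#(M i₀)) ℵ₀
  have hμ : ℵ₀ ≤ μ := le_max_right _ _
  have hμν : μ < ν := max_lt (hMν i₀) (hσ.trans_lt hσν)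
  have hE : ∀ a, #(E a) ≤ μ := by
    intro a
    by_contra hcon
    have h1 : #(M i₀) ≤ #(E a) := (le_max_left _ _).trans (not_le.mp hcon).le
    obtain ⟨f⟩ := h1
    choose c hc1 hc2 using fun ζ => (f ζ).2
    refine hi₀ a ⟨c, fun ζ => {(f ζ).1}, hc1, hc2, ?_⟩
    intro ζ ζ' hne
    rw [Set.disjoint_singleton]
    intro h
    exact hne (f.injective (Subtype.ext h))
  -- decide a point
  have point : ∀ q ≤ q₀, ∀ α, ∃ α', α ≤ α' ∧ ∃ q' ≤ q, ∃ u : S.L α',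
      hit S (d η) α' {u} ∈ G.F q' := by
    intro q hq α
    obtain ⟨α₁, h1, h2⟩ := hI.two (hσ.trans hσν.le) α β₁
    obtain ⟨α', h3, q', hq', h4⟩ := hstab q (hq.trans hq₀) α₁ h2
    have h5 : hit S (d η) α' (⋃ y : Y, {e α' y}) ∈ G.F q' := by
      refine Filter.mem_of_superset h4 (hit_mono ?_)
      intro x hx
      obtain ⟨y, hy⟩ := he α' hx
      exact Set.mem_iUnion.mpr ⟨y, by simp [hy]⟩
    obtain ⟨q'', hq'', y, hy⟩ := G.decSet Y (hY.le.trans hστ) α' _ q' h5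
    exact ⟨α', h1.trans h3, q'', hq''.trans hq', e α' y, hy⟩
  have maps : ∀ {a b : I} (h : a ≤ b), ∀ y ∈ E b, S.π h y ∈ E a := by
    intro a b h y hy
    have h1 : Pos G S (d η) q₀ a (S.π h '' {y}) := Pos.proj h hy
    rw [Set.image_singleton] at h1
    exact h1
  refine thread_of_small S E hμ (hI.mono (Order.succ_le_of_lt hμν)) hE ?_ maps ?_
  · intro a
    obtain ⟨α', h1, q', hq', u, hu⟩ := point q₀ le_rfl a
    exact ⟨S.π h1 u, maps h1 u ⟨q', hq', hu⟩⟩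
  · intro a b h x hx
    obtain ⟨q, hq, hx'⟩ := hx
    obtain ⟨α', h1, q', hq', u, hu⟩ := point q hq b
    refine ⟨S.π h1 u, maps h1 u ⟨q', hq'.trans hq, hu⟩, ?_⟩
    obtain ⟨p, ⟨g1, g2⟩, ⟨g3, g4⟩⟩ := G.nonempty_of_mem
      (Filter.inter_mem (G.memMono hq' hx') hu)
    have g2' : S.π g1 (d η p) = x := g2
    have g4' : S.π g3 (d η p) = u := g4
    rw [← g4', ← g2', S.π_trans, S.π_trans]

end Pool.Agent.Helper18.TP
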