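import Pool.Agent.Helper18.TP.Split

/-!
# From a closed generic ultrafilter to a narrow subsystem
-/

open Cardinal Set

universe u v

namespace Pool.Agent.Helper18.TP

variable {I : Type u} [Preorder I]

lemma mk_iUnion_le_of {X : Type u} {K : Type u} {σ : Cardinal.{u}} (hσ : ℵ₀ ≤ σ)
    (hK : #K ≤ σ) (B : K → Set X) (hB : ∀ k, #(B k) ≤ σ) : #(⋃ k, B k : Set X) ≤ σ := by
  refine (Cardinal.mk_iUnion_le_sum_mk).trans ?_
  refine (Cardinal.sum_le_sum _ (fun _ => σ) hB).trans ?_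
  rw [Cardinal.sum_const]
  simp only [Cardinal.lift_id]
  exact (mul_le_mul' hK le_rfl).trans (Cardinal.mul_eq_self hσ).le

/-- `A` is forced by some condition below `q₀` to contain the projection of the generic point. -/
def Pos {θ τ : Cardinal.{u}} (G : GenUF.{u, v} I θ τ) (S : InvSys I) (d : ∀ a, S.L a)
    (q₀ : G.Q) (α : I) (A : Set (S.L α)) : Prop :=
  ∃ q ≤ q₀, hit S d α A ∈ G.F q

section

variable {θ τ : Cardinal.{u}} {G : GenUF.{u, v} I θ τ} {S : InvSys I} {d : ∀ a, S.L a}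
  {q₀ : G.Q}

lemma Pos.mono' {α : I} {A B : Set (S.L α)} (h : Pos G S d q₀ α A) (hAB : A ⊆ B) :
    Pos G S d q₀ α B := by
  obtain ⟨q, hq, hA⟩ := h
  exact ⟨q, hq, Filter.mem_of_superset hA (hit_mono hAB)⟩

lemma Pos.proj {α β : I} (h : α ≤ β) {B : Set (S.L β)} (hB : Pos G S d q₀ β B) :
    Pos G S d q₀ α (S.π h '' B) := by
  obtain ⟨q, hq, hA⟩ := hB
  exact ⟨q, hq, Filter.mem_of_superset hA (fun _ ha => hit_proj h ha)⟩

lemma Pos.or {α : I} {A B : Set (S.L α)} (hτ : 2 ≤ τ) (h : Pos G S d q₀ α (A ∪ B)) :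
    Pos G S d q₀ α A ∨ Pos G S d q₀ α B := by
  obtain ⟨q, hq, hA⟩ := h
  obtain ⟨q', hq', h1 | h1⟩ := G.decOr hτ α A q
  · exact Or.inl ⟨q', hq'.trans hq, h1⟩
  · refine Or.inr ⟨q', hq'.trans hq, ?_⟩
    refine Filter.mem_of_superset (Filter.inter_mem h1 (G.memMono hq' hA)) ?_
    rintro a ⟨ha1, ha2⟩
    obtain ⟨h2, h3, h4⟩ := hit_inter ha1 ha2
    rcases h4 with h4 | h4
    · exact absurd h4 h3
    · exact ⟨h2, h4⟩

lemma Pos.diff {α : I} {A B : Set (S.L α)} (hτ : 2 ≤ τ) (h : Pos G S d q₀ α B)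
    (hn : ¬ Pos G S d q₀ α (B \ A)) : Pos G S d q₀ α A := by
  have h1 : Pos G S d q₀ α (A ∪ (B \ A)) := h.mono' (by
    intro x hx
    by_cases hxA : x ∈ A
    · exact Or.inl hxA
    · exact Or.inr ⟨hx, hxA⟩)
  rcases h1.or hτ with h2 | h2
  · exact h2
  · exact absurd h2 hn

end

/-- a maximal small set: every small set disjoint from it is negligible. -/
lemma exists_maxSmall {θ τ : Cardinal.{u}} (G : GenUF.{u, v} I θ τ) (S : InvSys I)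
    (d : ∀ a, S.L a) (q₀ : G.Q) {M : Type u} [LinearOrder M] [WellFoundedLT M]
    {σ : Cardinal.{u}} (hσ : ℵ₀ ≤ σ) (hM : #M ≤ σ) (α : I)
    (hsat : ¬ ∃ A : M → Set (S.L α), (∀ ζ, Pos G S d q₀ α (A ζ)) ∧
      ∀ ζ ζ', ζ ≠ ζ' → Disjoint (A ζ) (A ζ')) :
    ∃ A : Set (S.L α), #A ≤ σ ∧ ∀ B : Set (S.L α), #B ≤ σ → Disjoint A B →
      ¬ Pos G S d q₀ α B := by
  classical
  by_contra hcon
  push Not at hcon
  apply hsat
  choose nx h1 h2 h3 using hcon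
  -- build disjoint positive sets by recursion
  let Sm : Type u := {B : Set (S.L α) // #B ≤ σ}
  have hun : ∀ (ζ : M) (r : {ζ' : M // ζ' < ζ} → Sm), #(⋃ k, (r k).1 : Set (S.L α)) ≤ σ :=
    fun ζ r => mk_iUnion_le_of hσ ((Cardinal.mk_subtype_le _).trans hM) _ (fun k => (r k).2)
  let B : M → Sm := (wellFounded_lt (α := M)).fix (fun ζ rec =>
    ⟨nx (⋃ k : {ζ' : M // ζ' < ζ}, (rec k.1 k.2).1) (hun ζ (fun k => rec k.1 k.2)), h1 _ _⟩)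
  have hB : ∀ ζ, (B ζ).1 = nx (⋃ k : {ζ' : M // ζ' < ζ}, (B k.1).1)
      (hun ζ (fun k => B k.1)) := by
    intro ζ
    simp only [B]
    rw [WellFounded.fix_eq]
  refine ⟨fun ζ => (B ζ).1, ?_, ?_⟩
  · intro ζ
    show Pos G S d q₀ α (B ζ).1
    rw [hB]
    exact h3 _ _
  · have key : ∀ ζ ζ', ζ < ζ' → Disjoint (B ζ).1 (B ζ').1 := by
      intro ζ ζ' hlt
      rw [hB ζ']
      have h4 := h2 (⋃ k : {ζ'' : M // ζ'' < ζ'}, (B k.1).1) (hun ζ' (fun k => B k.1))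
      exact Set.disjoint_of_subset_left
        (Set.subset_iUnion (fun k : {ζ'' : M // ζ'' < ζ'} => (B k.1).1) ⟨ζ, hlt⟩) h4
    intro ζ ζ' hne
    rcases lt_or_gt_of_ne hne with h | h
    · exact key _ _ h
    · exact (key _ _ h).symm

/-- stabilization of the maximal small sets. -/
lemma exists_stable {θ τ ν : Cardinal.{u}} (G : GenUF.{u, v} I θ τ) (S : InvSys I)
    (d : ∀ a, S.L a) (q₀ : G.Q) (hI : UpDir ν I) (hτ : 2 ≤ τ)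
    {M : Type u} [LinearOrder M] [WellFoundedLT M]
    {σ : Cardinal.{u}} (hσ : ℵ₀ ≤ σ) (hσν : σ ≤ ν) (hM : #M ≤ σ)
    (hsat : ∀ α, ¬ ∃ A : M → Set (S.L α), (∀ ζ, Pos G S d q₀ α (A ζ)) ∧
      ∀ ζ ζ', ζ ≠ ζ' → Disjoint (A ζ) (A ζ'))
    (A : ∀ α, Set (S.L α)) (hA : ∀ α, #(A α) ≤ σ)
    (hmax : ∀ α (B : Set (S.L α)), #B ≤ σ → Disjoint (A α) B → ¬ Pos G S d q₀ α B) :
    ∃ β₁, ∀ β, β₁ ≤ β → ∀ q ≤ q₀, hit S d β₁ (A β₁) ∈ G.F q → hit S d β (A β)ᶜ ∉ G.F q := by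
  classical
  by_contra hcon
  push Not at hcon
  choose nx hnx qq hqq hq1 hq2 using hcon
  have ub : ∀ (J : Type u), #J ≤ σ → ∀ s : J → I, ∃ b, ∀ j, s j ≤ b :=
    fun J hJ s => hI J s (hJ.trans hσν)
  let z : M → I := (wellFounded_lt (α := M)).fix (fun w rec =>
    (ub {w' : M // w' < w} ((Cardinal.mk_subtype_le _).trans hM)
      (fun w' => nx (rec w'.1 w'.2))).choose)
  have hz : ∀ w w' : M, w' < w → nx (z w') ≤ z w := by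
    intro w w' h
    have h1 : z w = (ub {w' : M // w' < w} ((Cardinal.mk_subtype_le _).trans hM)
      (fun w' => nx (z w'.1))).choose := by
      simp only [z]
      rw [WellFounded.fix_eq]
    rw [h1]
    exact (ub {w' : M // w' < w} ((Cardinal.mk_subtype_le _).trans hM)
      (fun w' => nx (z w'.1))).choose_spec ⟨w', h⟩
  obtain ⟨b, hb⟩ := ub M hM (fun w => nx (z w))
  have hzb : ∀ w, z w ≤ b := fun w => (hnx _).trans (hb w)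
  let A' : ∀ w, Set (S.L (nx (z w))) := fun w =>
    ⋃ w' : {w' : M // w < w'}, S.π (hz w'.1 w w'.2) '' (A (z w'.1))
  have hA' : ∀ w, #(A' w) ≤ σ := fun w =>
    mk_iUnion_le_of hσ ((Cardinal.mk_subtype_le _).trans hM) _
      (fun k => (Cardinal.mk_image_le).trans (hA _))
  let E : ∀ w : M, Set (S.L b) := fun w =>
    {u | S.π (hzb w) u ∈ A (z w) ∧ S.π (hb w) u ∉ A' w}
  apply hsat b
  refine ⟨E, ?_, ?_⟩
  · intro w
    obtain ⟨q', hq', h1 | h1⟩ := G.decOr hτ (nx (z w)) (A' w) (qq (z w))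
    · exfalso
      have h2 : Pos G S d q₀ (nx (z w)) (A' w \ A (nx (z w))) := by
        refine ⟨q', hq'.trans (hqq _), ?_⟩
        refine Filter.mem_of_superset (Filter.inter_mem h1 (G.memMono hq' (hq2 (z w)))) ?_
        rintro a ⟨ha1, ha2⟩
        exact hit_inter ha1 ha2
      refine hmax (nx (z w)) _ ?_ ?_ h2
      · exact (Cardinal.mk_le_mk_of_subset Set.sdiff_subset).trans (hA' w)
      · exact Set.disjoint_sdiff_right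
    · refine ⟨q', hq'.trans (hqq _), ?_⟩
      refine Filter.mem_of_superset (Filter.inter_mem (Filter.inter_mem h1
        (G.memMono hq' (hq1 (z w)))) (G.cone q' b)) ?_
      rintro a ⟨⟨⟨g1, g2⟩, ⟨g3, g4⟩⟩, ha⟩
      refine ⟨ha, ?_, ?_⟩
      · rw [S.π_trans]; exact g4
      · rw [S.π_trans]; exact g2
  · have key : ∀ w w', w < w' → Disjoint (E w) (E w') := by
      intro w w' hlt
      rw [Set.disjoint_left]
      rintro x ⟨_, hx2⟩ ⟨hx3, _⟩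
      apply hx2
      refine Set.mem_iUnion.mpr ⟨⟨w', hlt⟩, ⟨S.π (hzb w') x, hx3, ?_⟩⟩
      rw [S.π_trans]
    intro ζ ζ' hne
    rcases lt_or_gt_of_ne hne with h | h
    · exact key _ _ h
    · exact (key _ _ h).symm

/-- **Narrow subsystem**, with the condition which forces it. -/
theorem narrow_step {θ τ ν : Cardinal.{u}} (G : GenUF.{u, v} I θ τ) (S : InvSys I)
    (d : ∀ a, S.L a) (hI : UpDir ν I) (hτ : 2 ≤ τ) (hν : ℵ₀ < ν) (hL : ∀ a, #(S.L a) ≤ ν)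
    {Θ : Type u} [LinearOrder Θ] [WellFoundedLT Θ] (hΘ : #Θ ≤ θ) (hΘτ : #(Option Θ) ≤ τ)
    (hΘν : #Θ ≤ ν) (κ : Θ → Cardinal.{u}) (hκ : ∀ i, κ i < ν)
    (hcov : ∀ X : Type u, #X ≤ ν → ∃ B : Θ → Set X, (∀ i, #(B i) ≤ κ i) ∧
      (⋃ i, B i) = Set.univ)
    (M : Θ → Type u) [∀ i, Nonempty (M i)] [∀ i, LinearOrder (M i)] [∀ i, WellFoundedLT (M i)]
    (hMν : ∀ i, #(M i) < ν)
    (hsum : #(Σ i : Θ, ∀ j : {j : Θ // j < i}, M j.1) ≤ ν)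
    (hprod : ν < #(∀ i, M i)) :
    ∃ (σ : Cardinal.{u}) (β₁ : I) (A : ∀ a, Set (S.L a)) (q₂ : G.Q), ℵ₀ ≤ σ ∧ σ < ν ∧
      (∀ a, #(A a) ≤ σ) ∧
      ∀ α, β₁ ≤ α → ∀ q ≤ q₂, ∃ q' ≤ q, hit S d α (A α) ∈ G.F q' := by
  classical
  obtain ⟨q₁⟩ := G.ne
  obtain ⟨q₀, -, i₀, hq₀⟩ := split G S d hI hL hΘ hΘτ M hsum hprod q₁
  have hsat : ∀ α, ¬ ∃ A : M i₀ → Set (S.L α), (∀ ζ, Pos G S d q₀ α (A ζ)) ∧
      ∀ ζ ζ', ζ ≠ ζ' → Disjoint (A ζ) (A ζ') := by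
    rintro α ⟨A, h1, h2⟩
    choose c hc1 hc2 using h1
    exact hq₀ α ⟨c, A, hc1, hc2, h2⟩
  -- uniform bound
  have hR : ∀ β, ∃ i, ∃ A : Set (S.L β), #A ≤ κ i ∧ Pos G S d q₀ β A := by
    intro β
    obtain ⟨B, hB1, hB2⟩ := hcov (S.L β) (hL β)
    have h1 : hit S d β (⋃ i, B i) ∈ G.F q₀ := by
      rw [hB2]
      exact Filter.mem_of_superset (G.cone q₀ β) (fun a ha => ⟨ha, trivial⟩)
    obtain ⟨q', hq', i, hi⟩ := G.decSet Θ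
      ((Cardinal.mk_le_of_injective (Option.some_injective Θ)).trans hΘτ) β B q₀ h1
    exact ⟨i, B i, hB1 i, q', hq', hi⟩
  have hR2 : ∃ i, ∀ β, ∃ A : Set (S.L β), #A ≤ κ i ∧ Pos G S d q₀ β A := by
    by_contra hcon
    push Not at hcon
    choose b hb using hcon
    obtain ⟨β, hβ⟩ := hI Θ b hΘν
    obtain ⟨i, A, hA, hA'⟩ := hR β
    exact hb i (S.π (hβ i) '' A) ((Cardinal.mk_image_le).trans hA) (hA'.proj (hβ i))
  obtain ⟨i₁, hi₁⟩ := hR2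
  let σ : Cardinal.{u} := max (max (κ i₁) (#(M i₀))) ℵ₀
  have hσ : ℵ₀ ≤ σ := le_max_right _ _
  have hσν : σ < ν := max_lt (max_lt (hκ i₁) (hMν i₀)) hν
  have hMσ : #(M i₀) ≤ σ := (le_max_right _ _).trans (le_max_left _ _)
  have hmx : ∀ α, ∃ A : Set (S.L α), #A ≤ σ ∧ ∀ B : Set (S.L α), #B ≤ σ → Disjoint A B →
      ¬ Pos G S d q₀ α B := fun α => exists_maxSmall G S d q₀ hσ hMσ α (hsat α)
  choose A hA hmax using hmx
  obtain ⟨β₁, hβ₁⟩ := exists_stable G S d q₀ hI hτ hσ hσν.le hMσ hsat A hA hmax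
  have hpos : Pos G S d q₀ β₁ (A β₁) := by
    obtain ⟨B, hB, hB'⟩ := hi₁ β₁
    refine hB'.diff hτ (hmax β₁ _ ?_ Set.disjoint_sdiff_right)
    exact (Cardinal.mk_le_mk_of_subset Set.sdiff_subset).trans
      (hB.trans ((le_max_left _ _).trans (le_max_left _ _)))
  obtain ⟨q₂, hq₂, hq₂'⟩ := hpos
  have step : ∀ α, β₁ ≤ α → ∀ q ≤ q₂, ∃ q' ≤ q, hit S d α (A α) ∈ G.F q' := by
    intro α hα q hq
    obtain ⟨q', hq', h | h⟩ := G.decOr hτ α (A α) q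
    · exact ⟨q', hq', h⟩
    · exact absurd h (hβ₁ α hα q' ((hq'.trans hq).trans hq₂) (G.memMono (hq'.trans hq) hq₂'))
  exact ⟨σ, β₁, A, q₂, hσ, hσν, hA, step⟩

/-- The narrow subsystem is a narrow system. -/
lemma narrow_of_step {θ τ : Cardinal.{u}} (G : GenUF.{u, v} I θ τ) (S : InvSys I)
    (d : ∀ a, S.L a) (β₁ : I) (A : ∀ a, Set (S.L a)) (q₂ : G.Q)
    (step : ∀ α, β₁ ≤ α → ∀ q ≤ q₂, ∃ q' ≤ q, hit S d α (A α) ∈ G.F q') :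
    ∀ α β (h : α ≤ β), β₁ ≤ α → ∃ v ∈ A β, S.π h v ∈ A α := by
  intro α β h hα
  obtain ⟨q, hq, h1⟩ := step α hα q₂ le_rfl
  obtain ⟨q', hq', h2⟩ := step β (hα.trans h) q hq
  obtain ⟨a, ⟨g1, g2⟩, ⟨g3, g4⟩⟩ := G.nonempty_of_mem (Filter.inter_mem (G.memMono hq' h1) h2)
  exact ⟨S.π g3 (d a), g4, by rw [S.π_trans]; exact g2⟩

/-- **Narrow subsystem.** -/
theorem narrow {θ τ ν : Cardinal.{u}} (G : GenUF.{u, v} I θ τ) (S : InvSys I)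
    (d : ∀ a, S.L a) (hI : UpDir ν I) (hτ : 2 ≤ τ) (hν : ℵ₀ < ν) (hL : ∀ a, #(S.L a) ≤ ν)
    {Θ : Type u} [LinearOrder Θ] [WellFoundedLT Θ] (hΘ : #Θ ≤ θ) (hΘτ : #(Option Θ) ≤ τ)
    (hΘν : #Θ ≤ ν) (κ : Θ → Cardinal.{u}) (hκ : ∀ i, κ i < ν)
    (hcov : ∀ X : Type u, #X ≤ ν → ∃ B : Θ → Set X, (∀ i, #(B i) ≤ κ i) ∧
      (⋃ i, B i) = Set.univ)
    (M : Θ → Type u) [∀ i, Nonempty (M i)] [∀ i, LinearOrder (M i)] [∀ i, WellFoundedLT (M i)]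
    (hMν : ∀ i, #(M i) < ν)
    (hsum : #(Σ i : Θ, ∀ j : {j : Θ // j < i}, M j.1) ≤ ν)
    (hprod : ν < #(∀ i, M i)) :
    ∃ (σ : Cardinal.{u}) (β₁ : I) (A : ∀ a, Set (S.L a)), ℵ₀ ≤ σ ∧ σ < ν ∧
      (∀ a, #(A a) ≤ σ) ∧ ∀ α β (h : α ≤ β), β₁ ≤ α → ∃ v ∈ A β, S.π h v ∈ A α := by
  obtain ⟨σ, β₁, A, q₂, h1, h2, h3, h4⟩ :=
    narrow_step G S d hI hτ hν hL hΘ hΘτ hΘν κ hκ hcov M hMν hsum hprod
  exact ⟨σ, β₁, A, h1, h2, h3, narrow_of_step G S d β₁ A q₂ h4⟩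

end Pool.Agent.Helper18.TP
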