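import Pool.Agent.Helper18.TP.ItpThm

/-!
# Trees and the tree property
-/

open Cardinal Set

universe u v

namespace Pool.Agent.Helper18.TP

/-- the order of `T` is a tree order: the predecessors of every point are well-ordered -/
def IsTreeOrder (T : Type u) [PartialOrder T] : Prop :=
  ∀ t : T, IsWellOrder {s : T // s < t} (· < ·)

/-- the height of a point of a tree: the order type of the set of its predecessors -/
noncomputable def height (T : Type u) [PartialOrder T] (h : IsTreeOrder T) (t : T) :
    Ordinal.{u} :=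
  haveI := h t
  Ordinal.type (α := {s : T // s < t}) (· < ·)

/-- `T` is a `κ`-tree: its height is `κ` and its levels have size less than `κ`. -/
structure IsKTree (κ : Cardinal.{u}) (T : Type u) [PartialOrder T] : Prop where
  tree : IsTreeOrder T
  lt : ∀ t, height T tree t < κ.ord
  nonempty : ∀ α < κ.ord, ∃ t, height T tree t = α
  small : ∀ α < κ.ord, #{t : T // height T tree t = α} < κ

/-- `b` is a cofinal branch of the `κ`-tree `T`: a chain which meets every level. -/
def IsCofinalBranch (κ : Cardinal.{u}) (T : Type u) [PartialOrder T] (h : IsTreeOrder T)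
    (b : Set T) : Prop :=
  IsChain (· ≤ ·) b ∧ ∀ α < κ.ord, ∃ t ∈ b, height T h t = α

/-- the tree property at `κ` -/
def TreeProperty (κ : Cardinal.{u}) : Prop :=
  ∀ (T : Type u) [PartialOrder T] (h : IsKTree κ T), ∃ b, IsCofinalBranch κ T h.tree b

section

variable {T : Type u} [PartialOrder T]

lemma height_eq_typein (hT : IsTreeOrder T) (t : T) (s : {s : T // s < t}) :
    haveI := hT t
    Ordinal.typein (α := {s : T // s < t}) (· < ·) s = height T hT s.1 := by
  have i1 := hT t
  have i2 := hT s.1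
  unfold height
  rw [← Ordinal.type_subrel]
  apply Ordinal.type_eq.mpr
  refine ⟨⟨⟨fun x => ⟨x.1.1, x.2⟩, fun x => ⟨⟨x.1, x.2.trans s.2⟩, x.2⟩, fun x => rfl,
    fun x => rfl⟩, ?_⟩⟩
  intro a b
  exact Iff.rfl

lemma height_lt (hT : IsTreeOrder T) {s t : T} (h : s < t) : height T hT s < height T hT t := by
  have i1 := hT t
  rw [← height_eq_typein hT t ⟨s, h⟩]
  exact Ordinal.typein_lt_type _ _

lemma cmp_of_le (hT : IsTreeOrder T) {s s' t : T} (h : s ≤ t) (h' : s' ≤ t) :
    s ≤ s' ∨ s' ≤ s := by
  rcases eq_or_lt_of_le h with rfl | h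
  · exact Or.inr h'
  rcases eq_or_lt_of_le h' with rfl | h'
  · exact Or.inl h.le
  have i1 := hT t
  rcases trichotomous_of (α := {s : T // s < t}) (· < ·) ⟨s, h⟩ ⟨s', h'⟩ with h1 | h1 | h1
  · exact Or.inl (le_of_lt h1)
  · exact Or.inl (le_of_eq (congrArg Subtype.val h1))
  · exact Or.inr (le_of_lt h1)

lemma eq_of_height (hT : IsTreeOrder T) {s s' t : T} (h : s ≤ t) (h' : s' ≤ t)
    (he : height T hT s = height T hT s') : s = s' := by
  rcases cmp_of_le hT h h' with h1 | h1
  · rcases eq_or_lt_of_le h1 with h2 | h2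
    · exact h2
    · exact absurd he (height_lt hT h2).ne
  · rcases eq_or_lt_of_le h1 with h2 | h2
    · exact h2.symm
    · exact absurd he (height_lt hT h2).ne'

lemma exists_pred (hT : IsTreeOrder T) (t : T) (α : Ordinal.{u}) (h : α ≤ height T hT t) :
    ∃ s ≤ t, height T hT s = α := by
  rcases eq_or_lt_of_le h with rfl | h
  · exact ⟨t, le_rfl, rfl⟩
  · have i1 := hT t
    have h1 : α < Ordinal.type (α := {s : T // s < t}) (· < ·) := h
    refine ⟨(Ordinal.enum (α := {s : T // s < t}) (· < ·) ⟨α, h1⟩).1,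
      (Ordinal.enum (α := {s : T // s < t}) (· < ·) ⟨α, h1⟩).2.le, ?_⟩
    rw [← height_eq_typein hT t, Ordinal.typein_enum]

end

end Pool.Agent.Helper18.TP
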