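import Pool.Agent.Helper18.TP.Tree

/-!
# The tree property at the successor of a singular strong limit cardinal
-/

open Cardinal Set

universe u v

namespace Pool.Agent.Helper18.TP

/-- push forward of a generic ultrafilter -/
def GenUF.map {I I' : Type u} [Preorder I] [Preorder I'] {θ τ : Cardinal.{u}}
    (G : GenUF.{u, v} I θ τ) (s : I → I') (hs : ∀ β, ∃ x, ∀ a, x ≤ a → β ≤ s a) :
    GenUF.{u, v} I' θ τ where
  Q := G.Q
  F q := (G.F q).map s
  mono h := Filter.map_mono (G.mono h)
  neBot q := by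
    have := G.neBot q
    exact Filter.map_neBot
  cone q β := by
    obtain ⟨x, hx⟩ := hs β
    show s ⁻¹' Set.Ici β ∈ G.F q
    exact Filter.mem_of_superset (G.cone q x) (fun a ha => hx a ha)
  dec K g hK q := by
    obtain ⟨q', hq', k, hk⟩ := G.dec K (g ∘ s) hK q
    exact ⟨q', hq', k, hk⟩
  closed := G.closed
  distr := G.distr

section

variable {ν : Cardinal.{u}}

lemma upDir_ord (hν : ℵ₀ ≤ ν) : UpDir ν (Order.succ ν).ord.ToType := by
  intro K f hK
  have hreg : (Order.succ ν).IsRegular := Cardinal.isRegular_succ hν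
  have h1 : ¬ IsCofinal (Set.range f) := by
    intro h
    have h2 := Order.cof_le h
    rw [Ordinal.cof_toType, hreg.cof_ord] at h2
    exact absurd (h2.trans (Cardinal.mk_range_le.trans hK)) (not_le.mpr (Order.lt_succ ν))
  rw [not_isCofinal_iff] at h1
  obtain ⟨b, hb⟩ := h1
  exact ⟨b, fun k => (hb _ ⟨k, rfl⟩).le⟩

/-- An upper bound of a small set of ordinals. -/
lemma exists_sup (hν : ℵ₀ ≤ ν) (a : PK (Order.succ ν) (Order.succ ν).ord.ToType) :
    ∃ b : (Order.succ ν).ord.ToType, ∀ x ∈ a.1, x ≤ b := by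
  obtain ⟨b, hb⟩ := upDir_ord hν a.1 (fun x => x.1) (Order.lt_succ_iff.mp a.2)
  exact ⟨b, fun x hx => hb ⟨x, hx⟩⟩

end

section

variable {T : Type u} [PartialOrder T] {κ : Cardinal.{u}}

/-- the inverse system of the levels of a tree -/
noncomputable def treeSys (h : IsKTree κ T) : InvSys κ.ord.ToType where
  L α := {t : T // height T h.tree t = Ordinal.typein (α := κ.ord.ToType) (· < ·) α}
  π {a b} hab t := ⟨(exists_pred h.tree t.1 (Ordinal.typein (α := κ.ord.ToType) (· < ·) a) (by
      rw [t.2, Ordinal.typein_le_typein]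
      exact not_lt.mpr hab)).choose,
    (exists_pred h.tree t.1 (Ordinal.typein (α := κ.ord.ToType) (· < ·) a) (by
      rw [t.2, Ordinal.typein_le_typein]
      exact not_lt.mpr hab)).choose_spec.2⟩
  π_refl a t := by
    apply Subtype.ext
    have h1 := (exists_pred h.tree t.1 (Ordinal.typein (α := κ.ord.ToType) (· < ·) a) (by
      rw [t.2])).choose_spec
    exact eq_of_height h.tree h1.1 le_rfl (h1.2.trans t.2.symm)
  π_trans {a b c} hab hbc t := by
    apply Subtype.ext
    have h1 := (exists_pred h.tree t.1 (Ordinal.typein (α := κ.ord.ToType) (· < ·) b) (by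
      rw [t.2, Ordinal.typein_le_typein]
      exact not_lt.mpr hbc)).choose_spec
    set s := (exists_pred h.tree t.1 (Ordinal.typein (α := κ.ord.ToType) (· < ·) b) (by
      rw [t.2, Ordinal.typein_le_typein]
      exact not_lt.mpr hbc)).choose with hs
    have h2 := (exists_pred h.tree s (Ordinal.typein (α := κ.ord.ToType) (· < ·) a) (by
      rw [h1.2, Ordinal.typein_le_typein]
      exact not_lt.mpr hab)).choose_spec
    have h3 := (exists_pred h.tree t.1 (Ordinal.typein (α := κ.ord.ToType) (· < ·) a) (by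
      rw [t.2, Ordinal.typein_le_typein]
      exact not_lt.mpr (hab.trans hbc))).choose_spec
    exact eq_of_height h.tree (h2.1.trans h1.1) h3.1 (h2.2.trans h3.2.symm)

lemma treeSys_le (h : IsKTree κ T) {a b : κ.ord.ToType} (hab : a ≤ b)
    (t : (treeSys h).L b) : ((treeSys h).π hab t).1 ≤ t.1 :=
  (exists_pred h.tree t.1 (Ordinal.typein (α := κ.ord.ToType) (· < ·) a) (by
      rw [t.2, Ordinal.typein_le_typein]
      exact not_lt.mpr hab)).choose_spec.1

end

/-- **The tree property at `ν⁺`.** -/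
theorem treeProperty_succ {ν : Cardinal.{u}} (hν : ν.IsStrongLimit) (hsing : ν.ord.cof < ν)
    (hG : ∀ τ < ν, Nonempty
      (GenUF.{u, v} (PK (Order.succ ν) (Order.succ ν).ord.ToType) ν.ord.cof τ)) :
    TreeProperty (Order.succ ν) := by
  intro T _ h
  have hν0 : ℵ₀ ≤ ν := hν.aleph0_le
  have h1ν : ℵ₀ ≤ Order.succ ν := hν0.trans (Order.le_succ ν)
  choose s hs using exists_sup hν0
  have hthr : (treeSys h).HasThread := by
    refine main hν hsing (upDir_ord hν0) ?_ (treeSys h) ?_ ?_
    · intro τ hτ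
      obtain ⟨G⟩ := hG τ hτ
      refine ⟨G.map s ?_⟩
      intro β
      refine ⟨⟨{β}, ?_⟩, ?_⟩
      · rw [Cardinal.mk_singleton]
        exact (Cardinal.one_lt_aleph0).trans_le h1ν
      · intro a ha
        have ha' : {β} ⊆ a.1 := ha
        exact hs a β (ha' rfl)
    · intro a
      exact Order.lt_succ_iff.mp (h.small _ (Ordinal.typein_lt_self a))
    · intro a
      obtain ⟨t, ht⟩ := h.nonempty _ (Ordinal.typein_lt_self a)
      exact ⟨t, ht⟩
  obtain ⟨t, ht⟩ := hthr
  refine ⟨Set.range (fun a => (t a).1), ?_, ?_⟩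
  · rintro _ ⟨a, rfl⟩ _ ⟨b, rfl⟩ _
    rcases le_total a b with hab | hab
    · left
      show (t a).1 ≤ (t b).1
      rw [← ht hab]
      exact treeSys_le h hab _
    · right
      show (t b).1 ≤ (t a).1
      rw [← ht hab]
      exact treeSys_le h hab _
  · intro α hα
    have hα' : α < Ordinal.type (α := (Order.succ ν).ord.ToType) (· < ·) := by
      rw [Ordinal.type_toType]; exact hα
    refine ⟨(t (Ordinal.enum (α := (Order.succ ν).ord.ToType) (· < ·) ⟨α, hα'⟩)).1,
      ⟨_, rfl⟩, ?_⟩
    rw [(t _).2, Ordinal.typein_enum]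

end Pool.Agent.Helper18.TP
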